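import Pool.Agent.Helper49.SF.Def

/-!
# Existence of systems of coordinates for permuted families
-/

set_option autoImplicit false
set_option linter.unusedSectionVars false

namespace Pool.Agent.Helper49.SF

open Finset Pool.Agent.W559.Mg Pool.Agent.Helper46.AQ Pool.Agent.Helper49.PQ Pointwise
  Pool.Agent.Helper49.SQ

section fam

variable {k K : Type} [Field k] [Field K] [Algebra k K] [DecidableEq K] {G : Type} [Group G]
  {ρ : G →* (K ≃ₐ[k] K)} {B : Subalgebra k K} {Z Zh : Finset K} {Λ : Type} [Fintype Λ] [DecidableEq Λ]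
  {Fl : Λ → Finset K}

lemma ppr_ne (hF : LF ρ B Z Fl) (S : Finset Λ) : (∏ l ∈ S, Fl l).Nonempty := by
  induction S using Finset.induction_on with
  | empty =>
    rw [Finset.prod_empty]
    exact Finset.one_nonempty
  | insert a s ha ih =>
    rw [Finset.prod_insert ha]
    exact (hF.ne a).mul ih

lemma ppr_mem (hF : LF ρ B Z Fl) (S : Finset Λ) : ∀ a ∈ ∏ l ∈ S, Fl l, a ∈ B := by
  induction S using Finset.induction_on with
  | empty =>
    intro a ha
    rw [Finset.prod_empty, Finset.mem_one] at ha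
    rw [ha]
    exact B.one_mem
  | insert c s hc ih =>
    intro a ha
    rw [Finset.prod_insert hc] at ha
    obtain ⟨x, hx, y, hy, rfl⟩ := Finset.mem_mul.1 ha
    exact B.mul_mem (hF.mem c x hx) (ih y hy)

lemma ppr_n0 (hF : LF ρ B Z Fl) (S : Finset Λ) : ∀ a ∈ ∏ l ∈ S, Fl l, a ≠ 0 := by
  induction S using Finset.induction_on with
  | empty =>
    intro a ha
    rw [Finset.prod_empty, Finset.mem_one] at ha
    rw [ha]
    exact one_ne_zero
  | insert c s hc ih =>
    intro a ha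
    rw [Finset.prod_insert hc] at ha
    obtain ⟨x, hx, y, hy, rfl⟩ := Finset.mem_mul.1 ha
    exact mul_ne_zero (hF.n0 c x hx) (ih y hy)

lemma ppr_st {g : G} {π : Equiv.Perm Λ} (hπ : ∀ l, ∀ a ∈ Fl l, ρ g a ∈ Fl (π l)) (S : Finset Λ) :
    ∀ a ∈ ∏ l ∈ S, Fl l, ρ g a ∈ ∏ l ∈ S.image π, Fl l := by
  induction S using Finset.induction_on with
  | empty =>
    intro a ha
    rw [Finset.prod_empty, Finset.mem_one] at ha
    rw [ha, map_one, Finset.image_empty, Finset.prod_empty, Finset.mem_one]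
  | insert c s hc ih =>
    intro a ha
    rw [Finset.prod_insert hc] at ha
    obtain ⟨x, hx, y, hy, rfl⟩ := Finset.mem_mul.1 ha
    rw [Finset.image_insert, Finset.prod_insert, map_mul]
    · exact Finset.mul_mem_mul (hπ c x hx) (ih y hy)
    · rw [Finset.mem_image]
      rintro ⟨d, hd, hde⟩
      exact hc (π.injective hde ▸ hd)

/-- The union of the products of `m` families. -/
def Pf (Fl : Λ → Finset K) (m : ℕ) : Finset K :=
  ((Finset.univ : Finset Λ).powersetCard m).biUnion fun S => ∏ l ∈ S, Fl l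

lemma mem_Pf {m : ℕ} {a : K} : a ∈ Pf Fl m ↔ ∃ S : Finset Λ, S.card = m ∧ a ∈ ∏ l ∈ S, Fl l := by
  unfold Pf
  rw [Finset.mem_biUnion]
  constructor
  · rintro ⟨S, hS, ha⟩
    exact ⟨S, (Finset.mem_powersetCard.1 hS).2, ha⟩
  · rintro ⟨S, hS, ha⟩
    exact ⟨S, Finset.mem_powersetCard.2 ⟨Finset.subset_univ _, hS⟩, ha⟩

lemma fam_Pf (hF : LF ρ B Z Fl) {m : ℕ} (hm : m ≤ Fintype.card Λ) : Fam ρ B (Pf Fl m) where
  ne := by
    obtain ⟨S, _, hS⟩ := Finset.exists_subset_card_eq (s := (Finset.univ : Finset Λ)) hm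
    obtain ⟨a, ha⟩ := ppr_ne hF S
    exact ⟨a, mem_Pf.2 ⟨S, hS, ha⟩⟩
  mem := by
    intro a ha
    obtain ⟨S, _, h⟩ := mem_Pf.1 ha
    exact ppr_mem hF S a h
  n0 := by
    intro a ha
    obtain ⟨S, _, h⟩ := mem_Pf.1 ha
    exact ppr_n0 hF S a h
  st := by
    intro g a ha
    obtain ⟨S, hS, h⟩ := mem_Pf.1 ha
    obtain ⟨π, hπ⟩ := hF.pm g
    refine mem_Pf.2 ⟨S.image π, ?_, ppr_st hπ S a h⟩
    rw [Finset.card_image_of_injective _ π.injective, hS]

variable {Γ : Type} [LinearOrderedCommGroupWithZero Γ]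

lemma mx_ppr (hF : LF ρ B Z Fl) (v : Valuation K Γ) (S : Finset Λ) :
    mx v (∏ l ∈ S, Fl l) = ∏ l ∈ S, mx v (Fl l) := by
  induction S using Finset.induction_on with
  | empty =>
    rw [Finset.prod_empty, Finset.prod_empty]
    apply le_antisymm
    · refine mx_le fun a ha => ?_
      rw [Finset.mem_one] at ha
      rw [ha, map_one]
    · have h1 : (1 : K) ∈ (1 : Finset K) := Finset.one_mem_one
      calc (1 : Γ) = v 1 := (map_one v).symm
        _ ≤ _ := le_mx h1
  | insert a s ha ih =>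
    rw [Finset.prod_insert ha, Finset.prod_insert ha, mx_mul (hF.ne a) (ppr_ne hF s), ih]

/-- The norm of the family number `j`. -/
def muF (Fl : Λ → Finset K) (v : Valuation K Γ) (ps : Λ ≃ Fin (Fintype.card Λ)) (j : ℕ) : Γ :=
  if h : j < Fintype.card Λ then mx v (Fl (ps.symm ⟨j, h⟩)) else 0

lemma mu_ps (v : Valuation K Γ) (ps : Λ ≃ Fin (Fintype.card Λ)) (l : Λ) :
    muF Fl v ps (ps l) = mx v (Fl l) := by
  unfold muF
  rw [dif_pos (ps l).2]
  rw [show (⟨(ps l : ℕ), (ps l).2⟩ : Fin (Fintype.card Λ)) = ps l from rfl, ps.symm_apply_apply]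

lemma mu_ne (hF : LF ρ B Z Fl) (v : Valuation K Γ) (ps : Λ ≃ Fin (Fintype.card Λ)) {j : ℕ}
    (hj : j < Fintype.card Λ) : muF Fl v ps j ≠ 0 := by
  unfold muF
  rw [dif_pos hj]
  exact mx_ne_zero (hF.ne _) (hF.n0 _)

/-- Sorted enumerations of the families. -/
def SrtF (Fl : Λ → Finset K) (v : Valuation K Γ) (ps : Λ ≃ Fin (Fintype.card Λ)) : Prop :=
  ∀ i j, i ≤ j → j < Fintype.card Λ → muF Fl v ps j ≤ muF Fl v ps i

lemma exists_srtF (Fl : Λ → Finset K) (v : Valuation K Γ) : ∃ ps, SrtF Fl v ps := by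
  let e0 : Λ ≃ Fin (Fintype.card Λ) := Fintype.equivFin Λ
  let f : Fin (Fintype.card Λ) → Γᵒᵈ := fun j => OrderDual.toDual (mx v (Fl (e0.symm j)))
  have hf := Tuple.monotone_sort f
  refine ⟨e0.trans (Tuple.sort f).symm, ?_⟩
  intro i j hij hj
  have hi : i < Fintype.card Λ := lt_of_le_of_lt hij hj
  have h1 : (⟨i, hi⟩ : Fin (Fintype.card Λ)) ≤ ⟨j, hj⟩ := hij
  have h2 := hf h1
  unfold muF
  rw [dif_pos hi, dif_pos hj]
  exact h2

lemma SrtF.mx_Pf (hF : LF ρ B Z Fl) {v : Valuation K Γ} {ps : Λ ≃ Fin (Fintype.card Λ)}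
    (h : SrtF Fl v ps) {m : ℕ} (hm : m ≤ Fintype.card Λ) :
    mx v (Pf Fl m) = ∏ j ∈ range m, muF Fl v ps j := by
  have hinj : Function.Injective fun l : Λ => (ps l : ℕ) :=
    fun a b hab => ps.injective (Fin.ext hab)
  have hval : ∀ S : Finset Λ, mx v (∏ l ∈ S, Fl l) =
      ∏ j ∈ S.image (fun l : Λ => (ps l : ℕ)), muF Fl v ps j := by
    intro S
    rw [mx_ppr hF, Finset.prod_image fun x _ y _ hxy => hinj hxy]
    exact Finset.prod_congr rfl fun l _ => (mu_ps v ps l).symm
  apply le_antisymm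
  · refine mx_le fun a ha => ?_
    obtain ⟨S, hS, h1⟩ := mem_Pf.1 ha
    refine (le_mx h1).trans ?_
    rw [hval]
    refine prod_le_range (muF Fl v ps) (Fintype.card Λ) h m _ ?_ ?_
    · intro j hj
      obtain ⟨l, _, rfl⟩ := Finset.mem_image.1 hj
      exact Finset.mem_range.2 (ps l).2
    · rw [Finset.card_image_of_injective _ hinj, hS]
  · set S : Finset Λ := Finset.univ.filter fun l => (ps l : ℕ) < m with hSdef
    have h1 : S.image (fun l : Λ => (ps l : ℕ)) = range m := by
      ext j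
      rw [Finset.mem_image, Finset.mem_range]
      constructor
      · rintro ⟨l, hl, rfl⟩
        exact (Finset.mem_filter.1 hl).2
      · intro hj
        refine ⟨ps.symm ⟨j, by omega⟩, Finset.mem_filter.2 ⟨Finset.mem_univ _, ?_⟩, ?_⟩
        · rw [ps.apply_symm_apply]
          exact hj
        · rw [ps.apply_symm_apply]
    have h2 : S.card = m := by
      rw [← Finset.card_image_of_injective S hinj, h1, Finset.card_range]
    have h3 := hval S
    rw [h1] at h3
    rw [← h3]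
    exact mx_le fun a ha => le_mx (mem_Pf.2 ⟨S, h2, ha⟩)

end fam

section sys0

variable {k K : Type} [Field k] [Field K] [Algebra k K] [DecidableEq K] {G : Type} [Group G]
  {ρ : G →* (K ≃ₐ[k] K)} {B : Subalgebra k K} {Z Zh : Finset K} {Λ : Type} [Fintype Λ] [DecidableEq Λ]
  {Fl : Λ → Finset K}

/-- The initial families. -/
def lA0 (Fl : Λ → Finset K) (i : Fin (Fintype.card Λ - 1)) : Finset K := Pf Fl (i + 2) * Pf Fl i

/-- The initial families. -/
def lB0 (Fl : Λ → Finset K) (i : Fin (Fintype.card Λ - 1)) : Finset K :=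
  Pf Fl (i + 1) * Pf Fl (i + 1)

/-- The initial exponents. -/
def lN0 (Λ : Type) [Fintype Λ] (j : ℕ) (i : Fin (Fintype.card Λ - 1)) : ℕ :=
  if (i : ℕ) < j then 1 else 0

variable {Γ : Type} [LinearOrderedCommGroupWithZero Γ] {v : Valuation K Γ}
  {ps : Λ ≃ Fin (Fintype.card Λ)}

lemma lal0 (hF : LF ρ B Z Fl) (h : SrtF Fl v ps) (i : Fin (Fintype.card Λ - 1)) :
    al (lA0 Fl) (lB0 Fl) v i = muF Fl v ps (i + 1) / muF Fl v ps i := by
  have hi := i.2
  have h0 : (Pf Fl i).Nonempty := (fam_Pf hF (by omega)).ne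
  have h1 : (Pf Fl (i + 1)).Nonempty := (fam_Pf hF (by omega)).ne
  have h2 : (Pf Fl (i + 2)).Nonempty := (fam_Pf hF (by omega)).ne
  unfold al lA0 lB0
  rw [mx_mul h2 h0, mx_mul h1 h1, h.mx_Pf hF (by omega), h.mx_Pf hF (by omega),
    h.mx_Pf hF (by omega)]
  have hp : ∏ j ∈ range (i : ℕ), muF Fl v ps j ≠ 0 :=
    Finset.prod_ne_zero_iff.2 fun j hj => mu_ne hF v ps (by have := Finset.mem_range.1 hj; omega)
  have hi0 : muF Fl v ps i ≠ 0 := mu_ne hF v ps (by omega)
  rw [Finset.prod_range_succ _ ((i : ℕ) + 1), Finset.prod_range_succ _ (i : ℕ)]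
  field_simp

lemma mz_lN0 {ξ : Fin (Fintype.card Λ - 1) → Γ} (hξ : ∀ i, ξ i ≠ 0) {j : ℕ}
    (hj : j < Fintype.card Λ - 1) :
    mz ξ (vz (lN0 Λ (j + 1))) = mz ξ (vz (lN0 Λ j)) * ξ ⟨j, hj⟩ := by
  have h1 : vz (lN0 Λ (j + 1)) = vz (lN0 Λ j) + Pi.single ⟨j, hj⟩ 1 := by
    funext i
    by_cases hi : i = ⟨j, hj⟩
    · subst hi
      simp [vz, lN0]
    · have hi' : (i : ℕ) ≠ j := fun h => hi (Fin.ext h)
      have h2 : ((i : ℕ) < j + 1) ↔ ((i : ℕ) < j) := by omega
      simp [vz, lN0, Pi.single_eq_of_ne hi, h2]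
  rw [h1, mz_add hξ, mz_single, zpow_one]

lemma lal0_ne (hF : LF ρ B Z Fl) (h : SrtF Fl v ps) (i : Fin (Fintype.card Λ - 1)) :
    al (lA0 Fl) (lB0 Fl) v i ≠ 0 := by
  have hi := i.2
  rw [lal0 hF h]
  exact div_ne_zero (mu_ne hF v ps (by omega)) (mu_ne hF v ps (by omega))

lemma mu_zero (hF : LF ρ B Z Fl) (hv : Pos B Z v) (h : SrtF Fl v ps) (hc : 0 < Fintype.card Λ) :
    muF Fl v ps 0 = 1 := by
  apply le_antisymm
  · unfold muF
    rw [dif_pos hc]
    exact mx_le fun a ha => hv.1 a (hF.mem _ a ha)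
  · obtain ⟨l, hl⟩ := hF.one
    calc (1 : Γ) = mx v (Fl l) := (hl Γ v hv).symm
      _ = muF Fl v ps (ps l) := (mu_ps v ps l).symm
      _ ≤ muF Fl v ps 0 := h 0 _ (Nat.zero_le _) (ps l).2

lemma lsys0_en (hF : LF ρ B Z Fl) (hv : Pos B Z v) (h : SrtF Fl v ps) :
    ∀ j < Fintype.card Λ, muF Fl v ps j = mz (al (lA0 Fl) (lB0 Fl) v) (vz (lN0 Λ j)) := by
  intro j
  induction j with
  | zero =>
    intro hj
    have hz : vz (lN0 Λ 0) = 0 := by
      funext i
      simp [vz, lN0]
    rw [hz, mz_zero]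
    exact mu_zero hF hv h hj
  | succ j ih =>
    intro hj
    have hj' : j < Fintype.card Λ - 1 := by omega
    rw [mz_lN0 (lal0_ne hF h) hj', ← ih (by omega), lal0 hF h]
    change _ = muF Fl v ps j * (muF Fl v ps (j + 1) / muF Fl v ps j)
    rw [mul_div_cancel₀ _ (mu_ne hF v ps (by omega))]

/-- The products of homogeneous families are homogeneous. -/
lemma hf_ppr {K0 : Subfield K} {t : K} (ht : t ≠ 0) {d : ℤ} (hd : ∀ l, HF K0 t d (Fl l))
    (S : Finset Λ) : HF K0 t ((S.card : ℤ) * d) (∏ l ∈ S, Fl l) := by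
  induction S using Finset.induction_on with
  | empty =>
    intro a ha
    rw [Finset.prod_empty, Finset.mem_one] at ha
    rw [ha, Finset.card_empty, Nat.cast_zero, zero_mul, zpow_zero, div_one]
    exact K0.one_mem
  | insert c s hc ih =>
    rw [Finset.prod_insert hc, Finset.card_insert_of_notMem hc]
    have h1 : (((s.card + 1 : ℕ) : ℤ)) * d = d + (s.card : ℤ) * d := by
      push_cast
      ring
    rw [h1]
    exact (hd c).mul ht ih

lemma hf_Pf {K0 : Subfield K} {t : K} (ht : t ≠ 0) {d : ℤ} (hd : ∀ l, HF K0 t d (Fl l))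
    (m : ℕ) : HF K0 t ((m : ℤ) * d) (Pf Fl m) := by
  intro a ha
  obtain ⟨S, hS, h⟩ := mem_Pf.1 ha
  rw [← hS]
  exact hf_ppr ht hd S a h

theorem lsys0 (hF : LF ρ B Z Fl) (hh : Hm Zh Fl) :
    LSys ρ B Z Zh Fl (lA0 Fl) (lB0 Fl) (fun _ _ => False) (lN0 Λ) where
  pc :=
    { fΦ := hF.fZ
      fA := fun i => by
        have hi := i.2
        exact (fam_Pf hF (by omega)).mul (fam_Pf hF (by omega))
      fB := fun i => by
        have hi := i.2
        exact (fam_Pf hF (by omega)).mul (fam_Pf hF (by omega))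
      le1 := by
        intro Γ _ v hv i
        obtain ⟨ps, hps⟩ := exists_srtF Fl v
        have hi := i.2
        rw [lal0 hF hps]
        have h0 : muF Fl v ps i ≠ 0 := mu_ne hF v ps (by omega)
        rw [div_le_one₀ (zero_lt_iff.2 h0)]
        exact hps _ _ (by omega) (by omega) }
  irr := fun _ => id
  sym := fun _ _ => id
  mono := by
    intro j j' i hjj
    unfold lN0
    split_ifs
    · exact le_rfl
    · omega
    · omega
    · exact le_rfl
  en := by
    intro Γ _ v hv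
    obtain ⟨ps, hps⟩ := exists_srtF Fl v
    refine ⟨ps, fun l => ?_⟩
    rw [← lsys0_en hF hv hps _ (ps l).2, mu_ps]
  ex := fun _ _ _ _ _ _ h => h.elim
  un := by
    intro Γ _ v hv ξ hξ0 hξ1 _ ps hev
    have hmu : ∀ j < Fintype.card Λ, muF Fl v ps j = mz ξ (vz (lN0 Λ j)) := by
      intro j hj
      have h1 := hev (ps.symm ⟨j, hj⟩)
      rw [ps.apply_symm_apply] at h1
      unfold muF
      rw [dif_pos hj]
      exact h1
    have hsrt : SrtF Fl v ps := by
      intro i j hij hj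
      rw [hmu j hj, hmu i (by omega)]
      refine mz_anti hξ0 hξ1 fun l => ?_
      unfold lN0
      split_ifs <;> omega
    funext i
    have hi := i.2
    rw [lal0 hF hsrt, hmu (i + 1) (by omega), mz_lN0 hξ0 hi, ← hmu i (by omega)]
    rw [mul_comm, mul_div_assoc, div_self (mu_ne hF v ps (by omega)), mul_one]
  la := by
    let c : ℕ → Fin (Fintype.card Λ - 1) → ℤ := fun m => ∑ j ∈ range m, vz (lN0 Λ j)
    refine ⟨fun j => j.elim 0
      (Sum.elim (fun i => c (i + 2) + c i) (fun i => c (i + 1) + c (i + 1))), ?_⟩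
    intro Γ _ v hv
    obtain ⟨ps, hps⟩ := exists_srtF Fl v
    have hne : ∀ i, al (lA0 Fl) (lB0 Fl) v i ≠ 0 := lal0_ne hF hps
    have hc : ∀ m ≤ Fintype.card Λ, mx v (Pf Fl m) = mz (al (lA0 Fl) (lB0 Fl) v) (c m) := by
      intro m hm
      rw [hps.mx_Pf hF hm, mz_sum hne]
      refine Finset.prod_congr rfl fun j hj => ?_
      exact lsys0_en hF hv hps j (by have := Finset.mem_range.1 hj; omega)
    rintro (_ | i | i)
    · change mx v Z = mz _ 0
      rw [hv.2, mz_zero]
    · have hi := i.2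
      change mx v (Pf Fl (i + 2) * Pf Fl i) = mz _ (c (i + 2) + c i)
      rw [mx_mul (fam_Pf hF (by omega)).ne (fam_Pf hF (by omega)).ne, hc _ (by omega),
        hc _ (by omega), mz_add hne]
    · have hi := i.2
      change mx v (Pf Fl (i + 1) * Pf Fl (i + 1)) = mz _ (c (i + 1) + c (i + 1))
      rw [mx_mul (fam_Pf hF (by omega)).ne (fam_Pf hF (by omega)).ne, hc _ (by omega),
        mz_add hne]
  hm := by
    intro K0 t ht hΦ
    obtain ⟨d, hd⟩ := hh K0 t ht hΦ
    refine ⟨fun i => (2 * (i : ℕ) + 2 : ℤ) * d, fun i => ⟨?_, ?_⟩⟩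
    · have h1 : (2 * (i : ℕ) + 2 : ℤ) * d = (((i : ℕ) + 2 : ℕ) : ℤ) * d + ((i : ℕ) : ℤ) * d := by
        push_cast
        ring
      beta_reduce
      rw [h1]
      exact (hf_Pf ht hd _).mul ht (hf_Pf ht hd _)
    · have h1 : (2 * (i : ℕ) + 2 : ℤ) * d =
          (((i : ℕ) + 1 : ℕ) : ℤ) * d + (((i : ℕ) + 1 : ℕ) : ℤ) * d := by
        push_cast
        ring
      beta_reduce
      rw [h1]
      exact (hf_Pf ht hd _).mul ht (hf_Pf ht hd _)

end sys0

section ref

variable {k K : Type} [Field k] [Field K] [Algebra k K] [DecidableEq K] {G : Type} [Group G]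
  {ρ : G →* (K ≃ₐ[k] K)} {B : Subalgebra k K} {Z Zh : Finset K} {Λ : Type} [Fintype Λ] [DecidableEq Λ]
  {Fl : Λ → Finset K}
  {ι : Type} [Fintype ι] [DecidableEq ι] {A B' : ι → Finset K} {Ex : ι → ι → Prop}
  {N : ℕ → ι → ℕ} {i0 j0 : ι}

/-- The refined system. -/
theorem lsys_ref (h : LSys ρ B Z Zh Fl A B' Ex N) (hne : i0 ≠ j0) (hEx : ¬ Ex i0 j0) :
    LSys ρ B Z Zh Fl (rA A B' i0 j0) (rB A B' i0 j0) (rE Ex i0 j0) (fun j => rv i0 j0 (N j)) where
  pc := pc_ref h.pc hne
  irr := by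
    rintro (_ | i)
    · exact id
    · rintro (h1 | ⟨h1, h2⟩ | ⟨h1, h2⟩)
      · exact h.irr _ h1
      · exact hne (h1.symm.trans h2)
      · exact hne (h2.symm.trans h1)
  sym := by
    rintro (_ | a) (_ | b) h1
    · exact h1
    · exact h1
    · exact h1
    · rcases h1 with h1 | ⟨h1, h2⟩ | ⟨h1, h2⟩
      · exact Or.inl (h.sym _ _ h1)
      · exact Or.inr (Or.inr ⟨h2, h1⟩)
      · exact Or.inr (Or.inl ⟨h2, h1⟩)
  mono := by
    rintro j j' (_ | i) hj
    · exact add_le_add (h.mono _ _ _ hj) (h.mono _ _ _ hj)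
    · exact h.mono _ _ _ hj
  en := by
    intro Γ _ v hv
    obtain ⟨ps, h1⟩ := h.en Γ v hv
    refine ⟨ps, fun l => ?_⟩
    rw [vz_rv, mz_rv ((pc_ref h.pc hne).al_ne v), dn_al h.pc hne]
    exact h1 l
  ex := by
    intro Γ _ v hv
    have hn := max_ne (v := v) (i0 := i0) (j0 := j0) h.pc
    have hle := h.pc.le1 Γ v hv
    -- if a coordinate is one then so is the new one
    have key : ∀ b, Ex i0 b ∨ Ex j0 b → al (rA A B' i0 j0) (rB A B' i0 j0) v none = 1 ∨
        al (rA A B' i0 j0) (rB A B' i0 j0) v (some b) = 1 := by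
      intro b hb
      have hb0 : b ≠ i0 := by
        rintro rfl
        rcases hb with hb | hb
        · exact h.irr _ hb
        · exact hEx (h.sym _ _ hb)
      have hb1 : b ≠ j0 := by
        rintro rfl
        rcases hb with hb | hb
        · exact hEx hb
        · exact h.irr _ hb
      rw [al_some hb0 hb1, al_none h.pc]
      rcases hb with hb | hb
      · rcases h.ex Γ v hv _ _ hb with h1 | h1
        · left
          exact le_antisymm (max_le (hle _) (hle _)) (h1 ▸ le_max_left _ _)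
        · exact Or.inr h1
      · rcases h.ex Γ v hv _ _ hb with h1 | h1
        · left
          exact le_antisymm (max_le (hle _) (hle _)) (h1 ▸ le_max_right _ _)
        · exact Or.inr h1
    have one : ∀ a, al A B' v a = 1 →
        al (rA A B' i0 j0) (rB A B' i0 j0) v (some a) = 1 := by
      intro a ha
      by_cases h1 : a = i0
      · subst h1
        have h2 : max (al A B' v a) (al A B' v j0) = 1 :=
          le_antisymm (max_le (hle _) (hle _)) (ha ▸ le_max_left _ _)
        rw [al_i0 h.pc, h2, ha, div_one]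
      · by_cases h2 : a = j0
        · subst h2
          have h3 : max (al A B' v i0) (al A B' v a) = 1 :=
            le_antisymm (max_le (hle _) (hle _)) (ha ▸ le_max_right _ _)
          rw [al_j0 h.pc hne, h3, ha, div_one]
        · rw [al_some h1 h2, ha]
    have new : al (rA A B' i0 j0) (rB A B' i0 j0) v (some i0) = 1 ∨
        al (rA A B' i0 j0) (rB A B' i0 j0) v (some j0) = 1 := by
      rw [al_i0 h.pc, al_j0 h.pc hne]
      rcases max_choice (al A B' v i0) (al A B' v j0) with h1 | h1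
      · left
        rw [h1]
        exact div_self (h.pc.al_ne v _)
      · right
        rw [h1]
        exact div_self (h.pc.al_ne v _)
    rintro (_ | a) (_ | b) h1
    · exact h1.elim
    · exact key b h1
    · exact (key a h1).symm
    · rcases h1 with h1 | ⟨h1, h2⟩ | ⟨h1, h2⟩
      · exact (h.ex Γ v hv _ _ h1).imp (one a) (one b)
      · rw [h1, h2]
        exact new
      · rw [h1, h2]
        exact new.symm
  un := by
    intro Γ _ v hv ξ hξ0 hξ1 hξE ps hev
    have hη0 : ∀ i, dn i0 j0 ξ i ≠ 0 := by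
      intro i
      unfold dn
      refine mul_ne_zero (hξ0 _) (mul_ne_zero ?_ ?_)
      · split_ifs
        · exact hξ0 _
        · exact one_ne_zero
      · split_ifs
        · exact hξ0 _
        · exact one_ne_zero
    have hη1 : ∀ i, dn i0 j0 ξ i ≤ 1 := by
      intro i
      unfold dn
      refine mul_le_one' (hξ1 _) (mul_le_one' ?_ ?_)
      · split_ifs
        · exact hξ1 _
        · exact le_rfl
      · split_ifs
        · exact hξ1 _
        · exact le_rfl
    have hs : ∀ b, b ≠ i0 → b ≠ j0 → dn i0 j0 ξ b = ξ (some b) := by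
      intro b h1 h2
      unfold dn
      rw [if_neg h1, if_neg h2, mul_one, mul_one]
    have hi0 : dn i0 j0 ξ i0 = ξ (some i0) * ξ none := by
      unfold dn
      rw [if_pos rfl, if_neg hne, mul_one]
    have hj0 : dn i0 j0 ξ j0 = ξ (some j0) * ξ none := by
      unfold dn
      rw [if_pos rfl, if_neg (Ne.symm hne), one_mul]
    have hEa : ∀ b, Ex i0 b → dn i0 j0 ξ i0 = 1 ∨ dn i0 j0 ξ b = 1 := by
      intro b hb
      have hb0 : b ≠ i0 := by rintro rfl; exact h.irr _ hb
      have hb1 : b ≠ j0 := by rintro rfl; exact hEx hb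
      rw [hi0, hs b hb0 hb1]
      rcases hξE (some i0) (some b) (Or.inl hb) with h1 | h1
      · rcases hξE none (some b) (Or.inl hb) with h2 | h2
        · left; rw [h1, h2, one_mul]
        · exact Or.inr h2
      · exact Or.inr h1
    have hEb : ∀ b, Ex j0 b → dn i0 j0 ξ j0 = 1 ∨ dn i0 j0 ξ b = 1 := by
      intro b hb
      have hb0 : b ≠ j0 := by rintro rfl; exact h.irr _ hb
      have hb1 : b ≠ i0 := by rintro rfl; exact hEx (h.sym _ _ hb)
      rw [hj0, hs b hb1 hb0]
      rcases hξE (some j0) (some b) (Or.inl hb) with h1 | h1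
      · rcases hξE none (some b) (Or.inr hb) with h2 | h2
        · left; rw [h1, h2, one_mul]
        · exact Or.inr h2
      · exact Or.inr h1
    have hη : dn i0 j0 ξ = al A B' v := by
      refine h.un Γ v hv _ hη0 hη1 ?_ ps ?_
      · intro a b hab
        by_cases ha0 : a = i0
        · subst ha0
          exact hEa b hab
        · by_cases ha1 : a = j0
          · subst ha1
            exact hEb b hab
          · by_cases hb0 : b = i0
            · subst hb0
              exact (hEa a (h.sym _ _ hab)).symm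
            · by_cases hb1 : b = j0
              · subst hb1
                exact (hEb a (h.sym _ _ hab)).symm
              · rw [hs a ha0 ha1, hs b hb0 hb1]
                exact hξE _ _ (Or.inl hab)
      · intro l
        rw [hev l, vz_rv, mz_rv hξ0]
    have hnone : ξ none = max (al A B' v i0) (al A B' v j0) := by
      rw [← hη, hi0, hj0]
      rcases hξE (some i0) (some j0) (Or.inr (Or.inl ⟨rfl, rfl⟩)) with h1 | h1
      · rw [h1, one_mul, max_eq_left]
        calc ξ (some j0) * ξ none ≤ 1 * ξ none := mul_le_mul_left (hξ1 _) _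
          _ = ξ none := one_mul _
      · rw [h1, one_mul, max_eq_right]
        calc ξ (some i0) * ξ none ≤ 1 * ξ none := mul_le_mul_left (hξ1 _) _
          _ = ξ none := one_mul _
    funext o
    rcases o with _ | i
    · rw [hnone, al_none h.pc]
    · by_cases h1 : i = i0
      · subst h1
        rw [al_i0 h.pc, ← hnone, ← hη, hi0, mul_div_assoc, div_self (hξ0 _), mul_one]
      · by_cases h2 : i = j0
        · subst h2
          rw [al_j0 h.pc hne, ← hnone, ← hη, hj0, mul_div_assoc, div_self (hξ0 _), mul_one]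
        · rw [al_some h1 h2, ← hη, hs i h1 h2]
  hm := by
    intro K0 t ht hΦ
    obtain ⟨δ, hδ⟩ := h.hm K0 t ht hΦ
    have e1 : δ j0 + δ i0 = δ i0 + δ j0 := add_comm _ _
    have hmax : HF K0 t (δ i0 + δ j0) (A i0 * B' j0 ∪ A j0 * B' i0) := by
      refine ((hδ i0).1.mul ht (hδ j0).2).union ?_
      have h1 := (hδ j0).1.mul ht (hδ i0).2
      rwa [e1] at h1
    refine ⟨fun o => o.elim (δ i0 + δ j0) fun i => if i = i0 ∨ i = j0 then δ i0 + δ j0 else δ i,
      ?_⟩
    rintro (_ | i)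
    · exact ⟨hmax, (hδ i0).2.mul ht (hδ j0).2⟩
    · change HF K0 t (if i = i0 ∨ i = j0 then δ i0 + δ j0 else δ i)
          (if i = i0 then A i0 * B' j0 else if i = j0 then A j0 * B' i0 else A i) ∧
        HF K0 t (if i = i0 ∨ i = j0 then δ i0 + δ j0 else δ i)
          (if i = i0 ∨ i = j0 then A i0 * B' j0 ∪ A j0 * B' i0 else B' i)
      by_cases h1 : i = i0
      · rw [if_pos h1, if_pos (Or.inl h1), if_pos (Or.inl h1)]
        exact ⟨(hδ i0).1.mul ht (hδ j0).2, hmax⟩
      · by_cases h2 : i = j0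
        · rw [if_neg h1, if_pos h2, if_pos (Or.inr h2), if_pos (Or.inr h2)]
          refine ⟨?_, hmax⟩
          have h1 := (hδ j0).1.mul ht (hδ i0).2
          rwa [e1] at h1
        · have h3 : ¬ (i = i0 ∨ i = j0) := by tauto
          rw [if_neg h1, if_neg h2, if_neg h3, if_neg h3]
          exact hδ i
  la := by
    obtain ⟨c, hc⟩ := h.la
    let cm : ι → ℤ := c (some (Sum.inr i0)) + c (some (Sum.inr j0))
    -- vector of the maximum
    let cx : Option ι → ℤ := Pi.single none 1 + rv i0 j0 cm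
    let c' : Option (Option ι ⊕ Option ι) → Option ι → ℤ := fun j => j.elim 0 (Sum.elim
      (fun o => o.elim cx fun i =>
        if i = i0 then rv i0 j0 (c (some (Sum.inl i0)) + c (some (Sum.inr j0))) else
        if i = j0 then rv i0 j0 (c (some (Sum.inl j0)) + c (some (Sum.inr i0))) else
          rv i0 j0 (c (some (Sum.inl i))))
      (fun o => o.elim (rv i0 j0 cm) fun i => if i = i0 ∨ i = j0 then cx else
        rv i0 j0 (c (some (Sum.inr i)))))
    refine ⟨c', ?_⟩
    intro Γ _ v hv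
    have hne' := (pc_ref h.pc hne).al_ne v
    have hr : ∀ m : ι → ℤ, mz (al (rA A B' i0 j0) (rB A B' i0 j0) v) (rv i0 j0 m) =
        mz (al A B' v) m := fun m => by rw [mz_rv hne', dn_al h.pc hne]
    have hA : ∀ i, mx v (A i) = mz (al A B' v) (c (some (Sum.inl i))) := fun i =>
      hc Γ v hv (some (Sum.inl i))
    have hB : ∀ i, mx v (B' i) = mz (al A B' v) (c (some (Sum.inr i))) := fun i =>
      hc Γ v hv (some (Sum.inr i))
    have hal := h.pc.al_ne v
    have hcx : mx v (A i0 * B' j0 ∪ A j0 * B' i0) =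
        mz (al (rA A B' i0 j0) (rB A B' i0 j0) v) cx := by
      rw [mx_max h.pc, mz_add hne', hr, mz_single, zpow_one, al_none h.pc, mz_add hal, hB, hB]
    rintro (_ | (_ | i) | (_ | i))
    · change mx v Z = mz _ 0
      rw [hv.2, mz_zero]
    · exact hcx
    · change mx v (if i = i0 then A i0 * B' j0 else if i = j0 then A j0 * B' i0 else A i) =
        mz _ (if i = i0 then rv i0 j0 (c (some (Sum.inl i0)) + c (some (Sum.inr j0))) else
          if i = j0 then rv i0 j0 (c (some (Sum.inl j0)) + c (some (Sum.inr i0))) else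
            rv i0 j0 (c (some (Sum.inl i))))
      split_ifs
      · rw [mx_mul (h.pc.fA _).ne (h.pc.fB _).ne, hr, mz_add hal, hA, hB]
      · rw [mx_mul (h.pc.fA _).ne (h.pc.fB _).ne, hr, mz_add hal, hA, hB]
      · rw [hr, hA]
    · change mx v (B' i0 * B' j0) = mz _ (rv i0 j0 cm)
      rw [mx_mul (h.pc.fB _).ne (h.pc.fB _).ne, hr, mz_add hal, hB, hB]
    · change mx v (if i = i0 ∨ i = j0 then A i0 * B' j0 ∪ A j0 * B' i0 else B' i) =
        mz _ (if i = i0 ∨ i = j0 then cx else rv i0 j0 (c (some (Sum.inr i))))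
      split_ifs
      · exact hcx
      · rw [hr, hB]

end ref

section SY

variable {k K : Type} [Field k] [Field K] [Algebra k K] [DecidableEq K] {G : Type} [Group G]
  {Λ : Type} [Fintype Λ] [DecidableEq Λ]

/-- Bundled systems of coordinates. -/
structure LY (ρ : G →* (K ≃ₐ[k] K)) (B : Subalgebra k K) (Z Zh : Finset K) (Fl : Λ → Finset K) where
  ι : Type
  fi : Fintype ι
  di : DecidableEq ι
  A : ι → Finset K
  B' : ι → Finset K
  Ex : ι → ι → Prop
  N : ℕ → ι → ℕ
  sys : LSys ρ B Z Zh Fl A B' Ex N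

/-- The linear combinations of the exponents. -/
def lq {ι : Type} {M : ℕ} (N : ℕ → ι → ℕ) (q : Fin M → ℤ) : ι → ℤ := ∑ j, q j • vz (N j)

lemma lrv_add {ι : Type} (i0 j0 : ι) (m m' : ι → ℤ) :
    rv i0 j0 (m + m') = rv i0 j0 m + rv i0 j0 m' := by
  funext o
  rcases o with _ | i
  · simp only [rv, Pi.add_apply]
    ring
  · rfl

lemma lrv_smul {ι : Type} (i0 j0 : ι) (q : ℤ) (m : ι → ℤ) :
    rv i0 j0 (q • m) = q • rv i0 j0 m := by
  funext o
  rcases o with _ | i
  · simp only [rv, Pi.smul_apply, smul_eq_mul]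
    ring
  · rfl

lemma lrv_sum {ι : Type} (i0 j0 : ι) {J : Type} (s : Finset J) (m : J → ι → ℤ) :
    rv i0 j0 (∑ j ∈ s, m j) = ∑ j ∈ s, rv i0 j0 (m j) := by
  classical
  induction s using Finset.induction_on with
  | empty =>
    rw [Finset.sum_empty, Finset.sum_empty]
    funext o
    rcases o with _ | i
    · simp [rv]
    · rfl
  | insert a s ha ih => rw [Finset.sum_insert ha, Finset.sum_insert ha, lrv_add, ih]

lemma lvz_rv {ι : Type} (i0 j0 : ι) (m : ι → ℕ) : vz (rv i0 j0 m) = rv i0 j0 (vz m) := by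
  funext o
  rcases o with _ | i
  · simp [vz, rv]
  · rfl

lemma lq_rv {ι : Type} {M : ℕ} (i0 j0 : ι) (N : ℕ → ι → ℕ) (q : Fin M → ℤ) :
    lq (fun j => rv i0 j0 (N j)) q = rv i0 j0 (lq N q) := by
  unfold lq
  rw [lrv_sum]
  refine Finset.sum_congr rfl fun j _ => ?_
  rw [lrv_smul, lvz_rv]

variable {ρ : G →* (K ≃ₐ[k] K)} {B : Subalgebra k K} {Z Zh : Finset K} {Fl : Λ → Finset K}

/-- The refined bundled system. -/
def LY.ref (X : LY ρ B Z Zh Fl) (i0 j0 : X.ι) (hne : i0 ≠ j0) (hE : ¬ X.Ex i0 j0) : LY ρ B Z Zh Fl :=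
  let _ := X.fi
  let _ := X.di
  { ι := Option X.ι
    fi := inferInstance
    di := inferInstance
    A := rA X.A X.B' i0 j0
    B' := rB X.A X.B' i0 j0
    Ex := rE X.Ex i0 j0
    N := fun j => rv i0 j0 (X.N j)
    sys := lsys_ref X.sys hne hE }

lemma exists_lcmp_aux {M : ℕ} (q : Fin M → ℤ) (m : ℕ) : ∀ (X : LY ρ B Z Zh Fl),
    (∀ i j, ¬ X.Ex i j → 0 < lq X.N q i → lq X.N q j < 0 → lq X.N q i - lq X.N q j ≤ m) →
    ∃ X' : LY ρ B Z Zh Fl, (∀ q' : Fin M → ℤ, Cmp X.Ex (lq X.N q') → Cmp X'.Ex (lq X'.N q')) ∧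
      Cmp X'.Ex (lq X'.N q) := by
  induction m with
  | zero =>
    intro X hX
    refine ⟨X, fun _ h => h, fun i j h1 h2 h3 => ?_⟩
    have := hX i j h1 h2 h3
    omega
  | succ m ih =>
    have key : ∀ (c : ℕ) (X : LY ρ B Z Zh Fl), (∀ i j, ¬ X.Ex i j → 0 < lq X.N q i → lq X.N q j < 0 →
        lq X.N q i - lq X.N q j ≤ (m + 1 : ℕ)) → (bad X.Ex (lq X.N q) (m + 1)).ncard ≤ c →
        ∃ X' : LY ρ B Z Zh Fl, (∀ q' : Fin M → ℤ, Cmp X.Ex (lq X.N q') → Cmp X'.Ex (lq X'.N q')) ∧
          Cmp X'.Ex (lq X'.N q) := by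
      intro c
      induction c with
      | zero =>
        intro X hX hc
        have := X.fi
        have h1 : bad X.Ex (lq X.N q) (m + 1) = ∅ :=
          (Set.ncard_eq_zero (Set.toFinite _)).1 (Nat.le_zero.1 hc)
        refine ih X fun i j h2 h3 h4 => ?_
        have h5 := hX i j h2 h3 h4
        have h6 : ¬ lq X.N q i - lq X.N q j = (m + 1 : ℕ) := by
          intro h7
          have : (i, j) ∈ bad X.Ex (lq X.N q) (m + 1) := ⟨h2, h3, h4, h7⟩
          rw [h1] at this
          exact this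
        push_cast at h5 h6
        omega
      | succ c ihc =>
        intro X hX hc
        have := X.fi
        have := X.di
        by_cases h1 : bad X.Ex (lq X.N q) (m + 1) = ∅
        · refine ih X fun i j h2 h3 h4 => ?_
          have h5 := hX i j h2 h3 h4
          have h6 : ¬ lq X.N q i - lq X.N q j = (m + 1 : ℕ) := by
            intro h7
            have : (i, j) ∈ bad X.Ex (lq X.N q) (m + 1) := ⟨h2, h3, h4, h7⟩
            rw [h1] at this
            exact this
          push_cast at h5 h6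
          omega
        · obtain ⟨⟨i0, j0⟩, hb⟩ := Set.nonempty_iff_ne_empty.2 h1
          obtain ⟨hE, hi, hj, hw⟩ := hb
          replace hE : ¬ X.Ex i0 j0 := hE
          replace hi : 0 < lq X.N q i0 := hi
          replace hj : lq X.N q j0 < 0 := hj
          replace hw : lq X.N q i0 - lq X.N q j0 = (m + 1 : ℕ) := hw
          have hne : i0 ≠ j0 := by
            rintro rfl
            exact absurd hj (not_lt.2 hi.le)
          let _ := X.fi
          let _ := X.di
          obtain ⟨X', hX'1, hX'2⟩ := ihc (X.ref i0 j0 hne hE) (by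
            change ∀ i j, ¬ rE X.Ex i0 j0 i j → 0 < lq (fun j => rv i0 j0 (X.N j)) q i →
              lq (fun j => rv i0 j0 (X.N j)) q j < 0 →
              lq (fun j => rv i0 j0 (X.N j)) q i - lq (fun j => rv i0 j0 (X.N j)) q j ≤ _
            rw [lq_rv]
            exact ref_bound X.sys.sym hi hj hX) (by
            change (bad (rE X.Ex i0 j0) (lq (fun j => rv i0 j0 (X.N j)) q) (m + 1)).ncard ≤ c
            rw [lq_rv]
            have h2 := ref_bad X.sys.sym hi hj hX
            have h3 := Set.ncard_le_ncard h2 (Set.toFinite _)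
            have h4 : ((Prod.map some some) '' (bad X.Ex (lq X.N q) (m + 1) \ {(i0, j0)}) :
                Set (Option X.ι × Option X.ι)).ncard ≤
                (bad X.Ex (lq X.N q) (m + 1) \ {(i0, j0)}).ncard :=
              Set.ncard_image_le (Set.toFinite _)
            have h5 : (bad X.Ex (lq X.N q) (m + 1) \ {(i0, j0)}).ncard <
                (bad X.Ex (lq X.N q) (m + 1)).ncard :=
              Set.ncard_sdiff_singleton_lt_of_mem ⟨hE, hi, hj, hw⟩ (Set.toFinite _)
            omega)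
          refine ⟨X', fun q' hq' => hX'1 q' ?_, hX'2⟩
          change Cmp (rE X.Ex i0 j0) (lq (fun j => rv i0 j0 (X.N j)) q')
          rw [lq_rv]
          exact hq'.ref X.sys.sym
    intro X hX
    exact key _ X hX le_rfl

lemma exists_lcmp {M : ℕ} (q : Fin M → ℤ) (X : LY ρ B Z Zh Fl) :
    ∃ X' : LY ρ B Z Zh Fl, (∀ q' : Fin M → ℤ, Cmp X.Ex (lq X.N q') → Cmp X'.Ex (lq X'.N q')) ∧
      Cmp X'.Ex (lq X'.N q) := by
  have := X.fi
  refine exists_lcmp_aux q (∑ i, ∑ j, (lq X.N q i - lq X.N q j).toNat) X fun i j _ _ _ => ?_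
  have h1 : (lq X.N q i - lq X.N q j).toNat ≤ ∑ j, (lq X.N q i - lq X.N q j).toNat :=
    Finset.single_le_sum (f := fun j => (lq X.N q i - lq X.N q j).toNat)
      (fun _ _ => Nat.zero_le _) (Finset.mem_univ j)
  have h2 : ∑ j, (lq X.N q i - lq X.N q j).toNat ≤
      ∑ i, ∑ j, (lq X.N q i - lq X.N q j).toNat :=
    Finset.single_le_sum (f := fun i => ∑ j, (lq X.N q i - lq X.N q j).toNat)
      (fun _ _ => Nat.zero_le _) (Finset.mem_univ i)
  omega

/-- Existence of good systems. -/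
theorem exists_LS (hF : LF ρ B Z Fl) (hh : Hm Zh Fl) (r : ℕ) :
    ∃ (ι : Type) (_ : Fintype ι) (_ : DecidableEq ι) (A B' : ι → Finset K) (Ex : ι → ι → Prop)
      (N : ℕ → ι → ℕ), LSys ρ B Z Zh Fl A B' Ex N ∧
      ∀ q : Fin (Fintype.card Λ) → ℤ, (∀ j, |q j| ≤ r) → Cmp Ex (∑ j, q j • vz (N j)) := by
  have key : ∀ l : List (Fin (Fintype.card Λ) → ℤ),
      ∃ X : LY ρ B Z Zh Fl, ∀ q ∈ l, Cmp X.Ex (lq X.N q) := by
    intro l
    induction l with
    | nil =>
      exact ⟨⟨_, inferInstance, inferInstance, _, _, _, _, lsys0 hF hh⟩, by simp⟩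
    | cons q l ih =>
      obtain ⟨X, hX⟩ := ih
      obtain ⟨X', h2, h3⟩ := exists_lcmp q X
      refine ⟨X', fun q' hq' => ?_⟩
      rcases List.mem_cons.1 hq' with rfl | hq'
      · exact h3
      · exact h2 _ (hX _ hq')
  obtain ⟨X, hX⟩ := key
    (Fintype.piFinset fun _ : Fin (Fintype.card Λ) => Finset.Icc (-(r : ℤ)) r).toList
  refine ⟨X.ι, X.fi, X.di, X.A, X.B', X.Ex, X.N, X.sys, fun q hq => hX q ?_⟩
  rw [Finset.mem_toList, Fintype.mem_piFinset]
  exact fun j => Finset.mem_Icc.2 (abs_le.1 (hq j))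

end SY

end Pool.Agent.Helper49.SF
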