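import Pool.Agent.Helper49.SF.As2

/-!
# The differences in the local ring of the chart
-/

set_option autoImplicit false
set_option linter.unusedSectionVars false

namespace Pool.Agent.Helper49.SF

open Finset Pool.Agent.W559.Mg Pool.Agent.Helper46.AQ Pool.Agent.Helper49.PQ Pointwise
  Pool.Agent.Helper49.SQ Pool.Agent.Helper49.SR

variable {k K : Type} [Field k] [Field K] [Algebra k K] [DecidableEq K] {G : Type} [Group G]
  [Fintype G] [DecidableEq G] {ρ : G →* (K ≃ₐ[k] K)} {B : Subalgebra k K} {Z U : Finset K} {p : ℕ}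
  {ι : Type} [Fintype ι] [DecidableEq ι] {A B' : ι → Finset K} {Ex : ι → ι → Prop}
  {N : ℕ → ι → ℕ} {ps : Lam G p ≃ Fin (Fintype.card (Lam G p))}
  {L : Type} [AddCommGroup L] {dg : L ≃+ (ι → ℤ)}
  {F Γ : Type} [Field F] [Algebra (ML K L) F] [FaithfulSMul (ML K L) F]
  [LinearOrderedCommGroupWithZero Γ] {W : Valuation F Γ}

lemma prod_mem_prod' {I : Type} [DecidableEq I] (s : Finset I) (Fm : I → Finset K) (g : I → K)
    (h : ∀ j, g j ∈ Fm j) : ∏ j ∈ s, g j ∈ ∏ j ∈ s, Fm j := by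
  induction s using Finset.induction_on with
  | empty => simp
  | insert j s hj ih =>
    rw [Finset.prod_insert hj, Finset.prod_insert hj]
    exact Finset.mul_mem_mul (h j) ih

/-- Closed under the inverses of the homogeneous elements of value one. -/
def Clo (W : Valuation F Γ) (S : Subalgebra k (ML K L)) : Prop :=
  ∀ (d : L) (a : K), a ≠ 0 → mo d a ∈ S → W (algebraMap (ML K L) F (mo d a)) = 1 →
    mo (-d) a⁻¹ ∈ S

lemma clo_LW (C : Subalgebra k (ML K L)) : Clo W (LW C W) := fun d a ha h h1 =>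
  inv_mem_LW C d a ha h h1

/-- The hypotheses on the values. -/
def MoV (k : Type) [Field k] [Algebra k K] (A B' : ι → Finset K) (dg : L ≃+ (ι → ℤ))
    (W : Valuation F Γ) : Prop :=
  ∀ (m : L) (a : K), W (algebraMap (ML K L) F (mo m a)) =
    vK k L W a / mz (al A B' (vK k L W)) (dg m)

lemma MoV.symm (h : MoV k A B' dg W) (d : ι → ℤ) (a : K) :
    W (algebraMap (ML K L) F (mo (dg.symm d) a)) = vK k L W a / mz (al A B' (vK k L W)) d := by
  rw [h, AddEquiv.apply_symm_apply]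

lemma MoV.val_xz (h : MoV k A B' dg W) (hPC : PC ρ B U A B') (m : ι → ℤ) :
    W (algebraMap (ML K L) F (xz K dg m)) = mz (al A B' (vK k L W)) m := by
  unfold xz
  rw [h.symm, mz_neg, map_one, one_div, inv_inv]

lemma MoV.xz_one (h : MoV k A B' dg W) (hPC : PC ρ B U A B') (hpos : Pos B U (vK k L W)) {i : ι}
    (hi : ¬ al A B' (vK k L W) i < 1) :
    W (algebraMap (ML K L) F (xz K dg (Pi.single i 1))) = 1 := by
  rw [h.val_xz hPC, mz_single, zpow_one]
  exact le_antisymm (hPC.le1 _ _ hpos i) (not_lt.1 hi)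

lemma adm_of {S : Subalgebra k (ML K L)} (h : MoV k A B' dg W) (hPC : PC ρ B U A B')
    (hpos : Pos B U (vK k L W)) (hx : ∀ i, xz K dg (Pi.single i 1) ∈ S) (hc : Clo W S) :
    Adm dg {i | al A B' (vK k L W) i < 1} S := by
  intro m hm
  refine xz_mem hx (fun i hi => ?_) hm
  have h1 := hc _ _ one_ne_zero (hx i) (h.xz_one hPC hpos hi)
  have h2 : xz K dg (Pi.single i (-1)) = mo (-(dg.symm (-Pi.single i 1))) (1 : K)⁻¹ := by
    unfold xz
    rw [inv_one, Pi.single_neg, ← map_neg]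
  rw [h2]
  exact h1

section C

variable {D : Tp U A B'} (hx : Cx ρ B Z U p A B' Ex N ps (vK k L W))
  {Q : Ideal (CC dg hx.sys.pc D)} (hC : Cen dg hx.sys.pc D Q W)

include hC

lemma mov_C : MoV k A B' dg W := fun m a => hC.mo m a

lemma adm_C : Adm dg {i | al A B' (vK k L W) i < 1} (LW (CC dg hx.sys.pc D) W) :=
  adm_of (mov_C hx hC) hx.sys.pc hx.posU (fun i => le_LW _ _ (xz_mem_CC hx.sys.pc i)) (clo_LW _)

lemma fl_C (l : Lam G p) (a : K) (ha : a ∈ Fl ρ Z p l) :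
    mo (dg.symm (Nv N ps l)) a ∈ LW (CC dg hx.sys.pc D) W := by
  obtain ⟨z, hz, hz1⟩ := exists_mx (v := vK k L W) hx.sb.fam.ne
  have hz2 : vK k L W z = 1 := by rw [← hz1]; exact hx.pos.2
  have hz0 : z ≠ 0 := hx.sb.fam.n0 z hz
  set j : ℕ := 1 + p * Fintype.card G - dgr G p l with hj
  have hzj : z ^ j ≠ 0 := pow_ne_zero _ hz0
  have h1 : mo (dg.symm (Nv N ps l)) (a * z ^ j) ∈ LW (CC dg hx.sys.pc D) W :=
    fl_mem_LW (lfU hx.sb hx.fU p hx.uz) hx.sys hC ps hx.hps l (a * z ^ j)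
      (Finset.mul_mem_mul ha (Finset.pow_mem_pow hz))
  have h2 : (mo 0 (z ^ j) : ML K L) ∈ LW (CC dg hx.sys.pc D) W := by
    refine le_LW _ _ ?_
    rw [mo_mem_CC]
    intro Γ _ v hv
    rw [map_zero, nm_zero]
    exact hv.1.1 _ (B.pow_mem (hx.sb.fam.mem z hz) j)
  have h3 : (mo (-0) (z ^ j)⁻¹ : ML K L) ∈ LW (CC dg hx.sys.pc D) W := by
    refine inv_mem_LW _ 0 (z ^ j) hzj h2 ?_
    rw [← vK_apply (k := k), map_pow, hz2, one_pow]
  have h4 := (LW (CC dg hx.sys.pc D) W).mul_mem h1 h3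
  rwa [mo_mul, neg_zero, add_zero, mul_inv_cancel_right₀ hzj] at h4

/-- The rescaled differences are in the local ring of the chart. -/
theorem key_C (c : G) (hc : c ≠ 1) : Key ρ Z p N ps dg (LW (CC dg hx.sys.pc D) W) c := by
  classical
  set S := LW (CC dg hx.sys.pc D) W with hS
  have hmo := mov_C hx hC
  intro a ha h i hi
  by_cases h0 : a = 0
  · subst h0
    rw [wM_zero, add_zero, pow_zero]
    exact fl_C hx hC (Sum.inl h) i hi
  by_cases hz : ((dlt ρ c) ^ a : Module.End k K) i = 0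
  · rw [hz, mo_zero]
    exact S.zero_mem
  -- elements of maximal value
  have hg : ∀ h', ∃ g ∈ FF ρ Z h', mx (vK k L W) (FF ρ Z h') = vK k L W g := fun h' =>
    exists_mx ((lf_Fl hx.sb p).ne (Sum.inl h'))
  choose g hg1 hg2 using hg
  have hg0 : ∀ h', g h' ≠ 0 := fun h' => (lf_Fl hx.sb p).n0 (Sum.inl h') _ (hg1 h')
  have hgi : ∀ h', mo (dg.symm (-Nv N ps (Sum.inl h'))) (g h')⁻¹ ∈ S := by
    intro h'
    have h1 := fl_C hx hC (Sum.inl h') (g h') (hg1 h')
    have h2 : W (algebraMap (ML K L) F (mo (dg.symm (Nv N ps (Sum.inl h'))) (g h'))) = 1 := by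
      rw [hmo.symm, hx.mz_inl, ← hg2]
      exact div_self (hx.dv_ne h')
    have h3 := clo_LW (CC dg hx.sys.pc D) _ _ (hg0 h') h1 h2
    rwa [← map_neg] at h3
  have hprod : ∀ s : Finset G, mo (dg.symm (-∑ h' ∈ s, Nv N ps (Sum.inl h'))) (∏ h' ∈ s, g h')⁻¹ ∈
      S := by
    intro s
    induction s using Finset.induction_on with
    | empty =>
      rw [Finset.sum_empty, Finset.prod_empty, neg_zero, map_zero, inv_one, mo_one]
      exact S.one_mem
    | insert j s hj ih =>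
      rw [Finset.sum_insert hj, Finset.prod_insert hj, mul_inv, neg_add, ← mo_mul']
      exact S.mul_mem (hgi j) ih
  have hpow : ∀ n : ℕ, mo (dg.symm (-(n • SN N ps))) ((∏ h', g h') ^ n)⁻¹ ∈ S := by
    intro n
    induction n with
    | zero =>
      rw [zero_nsmul, neg_zero, map_zero, pow_zero, inv_one, mo_one]
      exact S.one_mem
    | succ n ih =>
      rw [succ_nsmul, neg_add, pow_succ, mul_inv, ← mo_mul']
      exact S.mul_mem ih (hprod Finset.univ)
  have hxm : ∏ h' ∈ univ.erase h, g h' ∈ ∏ h' ∈ univ.erase h, FF ρ Z h' :=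
    prod_mem_prod' _ _ _ hg1
  have hym : (∏ h', g h') ^ (a - 1) ∈ (∏ h', FF ρ Z h') ^ (a - 1) :=
    Finset.pow_mem_pow (prod_mem_prod' _ _ _ hg1)
  have h1 := mem_nn c h i hi a (by omega) hz _ _ hxm hym
  have h2 : ((dlt ρ c) ^ a : Module.End k K) i * (∏ h' ∈ univ.erase h, g h') *
      (∏ h', g h') ^ (a - 1) ∈ Fl ρ Z p (Sum.inr (⟨c, hc⟩, ⟨a - 1, by omega⟩)) := by
    change _ ∈ nn ρ Z c (a - 1 + 1)
    rwa [Nat.sub_add_cancel (by omega)]
  have h3 := S.mul_mem (S.mul_mem (fl_C hx hC _ _ h2) (hprod (univ.erase h))) (hpow (a - 1))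
  rw [mo_mul', mo_mul'] at h3
  have hx0 : ∏ h' ∈ univ.erase h, g h' ≠ 0 := Finset.prod_ne_zero_iff.2 fun j _ => hg0 j
  have hy0 : (∏ h', g h') ^ (a - 1) ≠ 0 :=
    pow_ne_zero _ (Finset.prod_ne_zero_iff.2 fun j _ => hg0 j)
  have h4 : ((dlt ρ c) ^ a : Module.End k K) i * (∏ h' ∈ univ.erase h, g h') *
      (∏ h', g h') ^ (a - 1) * (∏ h' ∈ univ.erase h, g h')⁻¹ * ((∏ h', g h') ^ (a - 1))⁻¹ =
      ((dlt ρ c) ^ a : Module.End k K) i := by
    field_simp
  rw [h4] at h3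
  have h5 : Nv N ps (Sum.inl h) + wM N ps c a = Nv N ps (Sum.inr (⟨c, hc⟩, ⟨a - 1, by omega⟩)) +
      -∑ h' ∈ univ.erase h, Nv N ps (Sum.inl h') + -((a - 1) • SN N ps) := by
    have h6 : SN N ps = Nv N ps (Sum.inl h) + ∑ h' ∈ univ.erase h, Nv N ps (Sum.inl h') := by
      unfold SN
      rw [← Finset.add_sum_erase _ _ (Finset.mem_univ h)]
    have h7 : a • SN N ps = (a - 1) • SN N ps + SN N ps := by
      rw [← succ_nsmul, Nat.sub_add_cancel (by omega)]
    unfold wM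
    rw [dif_pos ⟨hc, by omega, ha⟩, h7]
    generalize (a - 1) • SN N ps = Y
    rw [h6]
    abel
  rw [h5]
  exact h3

end C

end Pool.Agent.Helper49.SF
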