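import Pool.Agent.Helper49.SF.Asm

/-!
# Models of the quotients of quasi-projective varieties: main theorem
-/

set_option autoImplicit false
set_option linter.unusedSectionVars false

namespace Pool.Agent.Helper49.SF

open Finset Pool.Agent.W559.Mg Pool.Agent.W559.Et Pool.Agent.Helper46.AQ Pool.Agent.Helper49.PQ
  Pool.Agent.Helper49.PN Pool.Agent.Helper49.SQ Pool.Agent.H920R2 Pool.Agent.Helper59.SE
  Pool.Agent.W559.Wr Pool.Agent.Helper49.SE

section main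

variable {k K K' : Type} [Field k] [Field K] [Algebra k K] [Field K'] [Algebra k K'] {N : ℕ}
  {G : Type} [Group G] [Finite G]

/-- Models of the quotient. -/
theorem models (hcone : ConeG2Stm) (hfin : Finite2Stm) (D : CK k K K') (p : ℕ) [Fact p.Prime]
    [PerfectField k] [CharP k p] (A : Subalgebra k K) (hfg : A.FG) (z : Fin (N + 1) → K)
    (ρ : G →* (K ≃ₐ[k] K)) (act : Act ρ A z) (hinj : ∀ g, ρ g = 1 → g = 1)
    (htop : IntermediateField.adjoin k ((A : Set K) ∪ {x | ∃ i j, x = z i / z j}) = ⊤)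
    (Sf : Finset K) (d : ℕ) (hd : 0 < d) (hSf : ∀ f ∈ Sf, f ∈ Fo A z d) (hSf0 : ∀ f ∈ Sf, f ≠ 0)
    (hSfi : ∀ f ∈ Sf, ∀ g, ρ g f = f) (hSfne : Sf.Nonempty)
    (hlin : ∀ (j : Fin (N + 1)) (q : Ideal (Ch A z j)) (hq : q.IsPrime), InV A z Sf d j q →
      LinG ρ (locR (Ch A z j) q hq))
    (hin : ∀ (j : Fin (N + 1)) (q : Ideal (Ch A z j)) (hq : q.IsPrime), InV A z Sf d j q →
      ∀ H : Subgroup G, (∀ h ∈ H, InG ρ (locR (Ch A z j) q hq) h) → ¬ p ^ 2 ∣ Nat.card H)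
    (F : IntermediateField k K) (hF : ∀ a, a ∈ F ↔ ∀ g, ρ g a = a) :
    PMS {R | ∃ (f : K) (hf : f ∈ Fo A z d), f ∈ Sf ∧ R = (QK A z hf).comap F.val} := by
  classical
  have hGft : Fintype G := Fintype.ofFinite G
  obtain ⟨e, S, he, hSF, hdat⟩ := hfin k K N A z G ρ act hfg Sf d hd hSf hlin
  obtain ⟨E, hEe⟩ : ∃ E, E = d * e := ⟨_, rfl⟩
  have hE : 0 < E := by
    rw [hEe]
    exact Nat.mul_pos hd he
  rw [← hEe] at hSF
  have hfg0 := hfg
  obtain ⟨YA, hYA⟩ := hfg0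
  have hz := act.z0
  have hYA' : ∀ y ∈ YA, y ∈ A := fun y hy => by
    rw [← hYA]
    exact Algebra.subset_adjoin hy
  -- the families in `K`
  let M0 : Finset K := univ.image fun m : Fin E → Fin (N + 1) => ∏ i, z (m i)
  have hM0 : ∀ x, x ∈ M0 ↔ ∃ m : Fin E → Fin (N + 1), x = ∏ i, z (m i) := by
    intro x
    rw [Finset.mem_image]
    exact ⟨fun ⟨a, _, h⟩ => ⟨a, h.symm⟩, fun ⟨a, h⟩ => ⟨a, mem_univ _, h.symm⟩⟩
  let Z0 : Finset K := orb ρ M0
  let Y0 : Finset K := (orb ρ YA).erase 0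
  let U0 : Finset K := Sf.image (· ^ e)
  have hU0 : ∀ x, x ∈ U0 ↔ ∃ f ∈ Sf, f ^ e = x := fun x => Finset.mem_image
  have hU0F : ∀ x ∈ U0, x ∈ Fo A z E := by
    intro x hx
    obtain ⟨f, hf, rfl⟩ := (hU0 x).1 hx
    rw [hEe]
    exact fo_pow' A z (hSf f hf) e
  have hU0n : ∀ x ∈ U0, x ≠ 0 := by
    intro x hx
    obtain ⟨f, hf, rfl⟩ := (hU0 x).1 hx
    exact pow_ne_zero _ (hSf0 f hf)
  have hU0i : ∀ x ∈ U0, ∀ g, ρ g x = x := by
    intro x hx g
    obtain ⟨f, hf, rfl⟩ := (hU0 x).1 hx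
    rw [map_pow, hSfi f hf g]
  let ZZ : Finset K := ((Z0 ∪ image₂ (· * ·) Y0 Z0 ∪ orb ρ S) ∪ U0).erase 0
  have hY0A : ∀ y ∈ Y0, y ∈ A := by
    intro y hy
    obtain ⟨g, s, hs, rfl⟩ := (mem_orb ρ).1 (Finset.mem_of_mem_erase hy)
    exact act.A g s (hYA' s hs)
  have hY0n : ∀ y ∈ Y0, y ≠ 0 := fun y hy => Finset.ne_of_mem_erase hy
  have hY0s : ∀ g, ∀ y ∈ Y0, ρ g y ∈ Y0 := fun g y hy =>
    Finset.mem_erase.2 ⟨(map_ne_zero (ρ g)).2 (hY0n y hy), orb_st ρ (Finset.mem_of_mem_erase hy) g⟩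
  have hmono : ∀ m : Fin E → Fin (N + 1), ∏ i, z (m i) ∈ Fo A z E := fun m =>
    Submodule.subset_span ⟨1, A.one_mem, m, by rw [one_mul]⟩
  have hZ0F : ∀ x ∈ Z0, x ∈ Fo A z E := by
    intro x hx
    obtain ⟨g, s, hs, rfl⟩ := (mem_orb ρ).1 hx
    obtain ⟨m, rfl⟩ := (hM0 s).1 hs
    exact foAct k K N A z G ρ act g E _ (hmono m)
  have hZ0n : ∀ x ∈ Z0, x ≠ 0 := by
    intro x hx
    obtain ⟨g, s, hs, rfl⟩ := (mem_orb ρ).1 hx
    obtain ⟨m, rfl⟩ := (hM0 s).1 hs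
    exact (map_ne_zero (ρ g)).2 (Finset.prod_ne_zero_iff.2 fun i _ => hz _)
  have hZ0s : ∀ g, ∀ y ∈ Z0, ρ g y ∈ Z0 := fun g y hy => orb_st ρ hy g
  have hZZF : ∀ x ∈ ZZ, x ∈ Fo A z E := by
    intro x hx
    rcases Finset.mem_union.1 (Finset.mem_of_mem_erase hx) with h | h
    · rcases Finset.mem_union.1 h with h | h
      · rcases Finset.mem_union.1 h with h | h
        · exact hZ0F x h
        · obtain ⟨y, hy, w, hw, rfl⟩ := Finset.mem_image₂.1 h
          have h1 := fo_mul A z (fo_zero A z (hY0A y hy)) (hZ0F w hw)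
          rwa [zero_add] at h1
      · obtain ⟨g, s, hs, rfl⟩ := (mem_orb ρ).1 h
        exact foAct k K N A z G ρ act g E _ (hSF s hs)
    · exact hU0F x h
  have hZZn : ∀ x ∈ ZZ, x ≠ 0 := fun y hy => Finset.ne_of_mem_erase hy
  have hZZs : ∀ g, ∀ x ∈ ZZ, ρ g x ∈ ZZ := by
    intro g x hx
    refine Finset.mem_erase.2 ⟨(map_ne_zero (ρ g)).2 (hZZn x hx), ?_⟩
    rcases Finset.mem_union.1 (Finset.mem_of_mem_erase hx) with h | h
    · refine Finset.mem_union_left _ ?_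
      rcases Finset.mem_union.1 h with h | h
      · rcases Finset.mem_union.1 h with h | h
        · exact Finset.mem_union_left _ (Finset.mem_union_left _ (hZ0s g x h))
        · obtain ⟨y, hy, w, hw, rfl⟩ := Finset.mem_image₂.1 h
          refine Finset.mem_union_left _ (Finset.mem_union_right _ ?_)
          exact Finset.mem_image₂.2 ⟨_, hY0s g y hy, _, hZ0s g w hw, (map_mul (ρ g) _ _).symm⟩
      · exact Finset.mem_union_right _ (orb_st ρ h g)
    · rw [hU0i x h g]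
      exact Finset.mem_union_right _ h
  have hZ0Z : ∀ x ∈ Z0, x ∈ ZZ := fun x hx =>
    Finset.mem_erase.2 ⟨hZ0n x hx, Finset.mem_union_left _ (Finset.mem_union_left _
      (Finset.mem_union_left _ hx))⟩
  have hYZ : ∀ y ∈ Y0, ∀ x ∈ Z0, y * x ∈ ZZ := fun y hy x hx =>
    Finset.mem_erase.2 ⟨mul_ne_zero (hY0n y hy) (hZ0n x hx),
      Finset.mem_union_left _ (Finset.mem_union_left _ (Finset.mem_union_right _
        (Finset.mem_image₂.2 ⟨y, hy, x, hx, rfl⟩)))⟩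
  have hSZ : ∀ x ∈ S, x ≠ 0 → x ∈ ZZ := fun x hx h0 =>
    Finset.mem_erase.2 ⟨h0, Finset.mem_union_left _ (Finset.mem_union_right _ (le_orb ρ hx))⟩
  have hUZ0 : ∀ x ∈ U0, x ∈ ZZ := fun x hx =>
    Finset.mem_erase.2 ⟨hU0n x hx, Finset.mem_union_right _ hx⟩
  have hadj0 : Algebra.adjoin k (Y0 : Set K) = A := by
    apply le_antisymm
    · exact Algebra.adjoin_le hY0A
    · rw [← hYA]
      refine Algebra.adjoin_le fun y hy => ?_
      by_cases h0 : y = 0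
      · rw [h0]
        exact Subalgebra.zero_mem _
      · exact Algebra.subset_adjoin (Finset.mem_coe.2 (Finset.mem_erase.2 ⟨h0, le_orb ρ hy⟩))
  -- the families in `K'`
  let ρ' : G →* (K' ≃ₐ[k] K') := D.Θ.comp ρ
  have hρc : ∀ g x, ρ' g (D.c x) = D.c (ρ g x) := fun g x => D.Θc (ρ g) x
  have hρt : ∀ g, ρ' g D.t = D.t := fun g => D.Θt (ρ g)
  have hρtc : ∀ g x, ρ' g (D.t * D.c x) = D.t * D.c (ρ g x) := fun g x => by
    rw [map_mul, hρt, hρc]
  let Z : Finset K' := ZZ.image fun x => D.t * D.c x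
  let Z1 : Finset K' := Z0.image fun x => D.t * D.c x
  let Y : Finset K' := Y0.image D.c
  let U : Finset K' := U0.image fun x => D.t * D.c x
  have hUm : ∀ x, x ∈ U0 → D.t * D.c x ∈ U := fun x hx => Finset.mem_image.2 ⟨x, hx, rfl⟩
  have hU : ∀ x ∈ U, ∃ f ∈ Sf, x = D.t * D.c (f ^ e) := by
    intro x hx
    obtain ⟨w, hw, rfl⟩ := Finset.mem_image.1 hx
    obtain ⟨f, hf, rfl⟩ := (hU0 w).1 hw
    exact ⟨f, hf, rfl⟩
  have hZm : ∀ x, x ∈ ZZ → D.t * D.c x ∈ Z := fun x hx => Finset.mem_image.2 ⟨x, hx, rfl⟩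
  have hZ1m : ∀ x, x ∈ Z0 → D.t * D.c x ∈ Z1 := fun x hx => Finset.mem_image.2 ⟨x, hx, rfl⟩
  have hYm : ∀ x, x ∈ Y0 → D.c x ∈ Y := fun x hx => Finset.mem_image.2 ⟨x, hx, rfl⟩
  have hZF : ∀ x ∈ Z, ∃ w ∈ Fo A z E, x = D.t * D.c w := by
    intro x hx
    obtain ⟨w, hw, rfl⟩ := Finset.mem_image.1 hx
    exact ⟨w, hZZF w hw, rfl⟩
  have hZs : ∀ g, ∀ x ∈ Z, ρ' g x ∈ Z := by
    intro g x hx
    obtain ⟨w, hw, rfl⟩ := Finset.mem_image.1 hx
    rw [hρtc]
    exact hZm _ (hZZs g w hw)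
  have hYs : ∀ g, ∀ x ∈ Y, ρ' g x ∈ Y := by
    intro g x hx
    obtain ⟨w, hw, rfl⟩ := Finset.mem_image.1 hx
    rw [hρc]
    exact hYm _ (hY0s g w hw)
  have hmZ0 : ∀ m : Fin E → Fin (N + 1), ∏ i, z (m i) ∈ Z0 := fun m =>
    le_orb ρ ((hM0 _).2 ⟨m, rfl⟩)
  have hmZ : ∀ m : Fin E → Fin (N + 1), D.t * D.c (∏ i, z (m i)) ∈ Z := fun m =>
    hZm _ (hZ0Z _ (hmZ0 m))
  have hadj : Algebra.adjoin k (Y : Set K') = A.map D.c := by
    rw [← hadj0, AlgHom.map_adjoin, Finset.coe_image]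
  let B : Subalgebra k K' := Algebra.adjoin k ((Y : Set K') ∪ (Z : Set K'))
  have hcA : ∀ a ∈ A, D.c a ∈ B := by
    intro a ha
    have h1 : D.c a ∈ Algebra.adjoin k (Y : Set K') := by
      rw [hadj]
      exact ⟨a, ha, rfl⟩
    exact Algebra.adjoin_mono Set.subset_union_left h1
  have hZB : ∀ x ∈ Z, x ∈ B := fun x hx => Algebra.subset_adjoin (Or.inr hx)
  have hYA0 : ∀ y ∈ Y, ∃ a ∈ A, y = D.c a := by
    intro y hy
    obtain ⟨w, hw, rfl⟩ := Finset.mem_image.1 hy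
    exact ⟨w, hY0A w hw, rfl⟩
  have hUZ : U ⊆ Z := by
    intro x hx
    obtain ⟨w, hw, rfl⟩ := Finset.mem_image.1 hx
    exact hZm _ (hUZ0 w hw)
  obtain ⟨hLL, hIN⟩ := hcone k K K' N A z G ρ act hfg Sf d hd hSf ρ' D.c D.t D.tr hρc hρt e he Z Y U
    (by rw [← hEe]; exact hZF) hZs hYs (by rw [← hEe]; exact hmZ) hU hadj (by
      intro j q hq hqV
      rw [← hEe]
      have hdat' := hdat j q hq hqV
      rw [← hEe] at hdat'
      obtain ⟨f, hf, hfq, s, n, y, h1, h2, h3, h4, h5, h6, h7, h8⟩ := hdat'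
      refine ⟨f, hf, hfq, s, n, y, h1, h2, h3, h4, h5, hZm _ (hSZ _ h6 h2),
        fun i => hZm _ (hSZ _ (h7 i) (mul_ne_zero h2 ?_)), h8⟩
      have h9 := et_ne y h1 i
      exact fun h0 => h9 (Subtype.ext h0)) B rfl
  -- relative generation
  have hRG : SR.RG ρ' B Z Y Z1 :=
    { st := hYs
      sub := by
        intro x hx
        obtain ⟨w, hw, rfl⟩ := Finset.mem_image.1 hx
        exact hZm _ (hZ0Z w hw)
      mul := by
        intro y hy x hx
        obtain ⟨w, hw, rfl⟩ := Finset.mem_image.1 hx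
        obtain ⟨y', hy', rfl⟩ := Finset.mem_image.1 hy
        have h1 : D.c y' * (D.t * D.c w) = D.t * D.c (y' * w) := by
          rw [map_mul]
          ring
        rw [h1]
        exact hZm _ (hYZ y' hy' w hw)
      dv := by
        intro x hx
        obtain ⟨w, hw, rfl⟩ := hZF x hx
        clear hx
        unfold Fo at hw
        induction hw using Submodule.span_induction with
        | mem x hx =>
          obtain ⟨a, ha, m, rfl⟩ := hx
          have h1 := hZ1m _ (hmZ0 m)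
          refine ⟨fun x => if x = D.t * D.c (∏ i, z (m i)) then D.c a else 0, fun x _ => ?_, ?_⟩
          · dsimp only
            split_ifs
            · exact hcA a ha
            · exact B.zero_mem
          refine Eq.trans ?_ (Finset.sum_eq_single_of_mem _ h1 fun x _ hx => by
            simp only [if_neg hx, zero_mul]).symm
          simp only [if_true]
          rw [map_mul]
          ring
        | zero =>
          refine ⟨fun _ => 0, fun _ _ => B.zero_mem, ?_⟩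
          rw [map_zero, mul_zero]
          simp
        | add x y _ _ hx hy =>
          obtain ⟨c1, h1, h2⟩ := hx
          obtain ⟨c2, h3, h4⟩ := hy
          refine ⟨fun x => c1 x + c2 x, fun x hx => B.add_mem (h1 x hx) (h3 x hx), ?_⟩
          rw [map_add, mul_add, h2, h4, ← Finset.sum_add_distrib]
          exact Finset.sum_congr rfl fun x _ => (add_mul _ _ _).symm
        | smul r x _ hx =>
          obtain ⟨c1, h1, h2⟩ := hx
          refine ⟨fun x => r • c1 x, fun x hx => B.smul_mem (h1 x hx) r, ?_⟩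
          rw [map_smul, mul_smul_comm, h2, Finset.smul_sum]
          exact Finset.sum_congr rfl fun x _ => (smul_mul_assoc _ _ _).symm
      gen := rfl }
  -- the field
  let Q := IntermediateField.adjoin k ((Y : Set K') ∪ (Z : Set K'))
  have hBQ : ∀ x ∈ B, x ∈ Q := by
    have h1 : B ≤ Q.toSubalgebra :=
      Algebra.adjoin_le fun x hx => IntermediateField.subset_adjoin k _ hx
    exact h1
  have hcQ : ∀ x, D.c x ∈ Q := by
    have h1 : (⊤ : IntermediateField k K) ≤ Q.comap D.c := by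
      rw [← htop, IntermediateField.adjoin_le_iff]
      rintro x (hx | ⟨i, j, rfl⟩)
      · exact hBQ _ (hcA x hx)
      · change D.c (z i / z j) ∈ Q
        obtain ⟨E', rfl⟩ := Nat.exists_eq_succ_of_ne_zero hE.ne'
        have h2 : ∀ i, ∏ l, z ((Fin.cons i fun _ => 0 : Fin (E' + 1) → Fin (N + 1)) l) =
            z i * z 0 ^ E' := by
          intro i
          rw [Fin.prod_univ_succ]
          simp
        have h3 := div_mem (hBQ _ (hZB _ (hmZ (Fin.cons i fun _ => 0))))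
          (hBQ _ (hZB _ (hmZ (Fin.cons j fun _ => 0))))
        rw [h2, h2] at h3
        have h4 : D.t * D.c (z i * z 0 ^ E') / (D.t * D.c (z j * z 0 ^ E')) = D.c (z i / z j) := by
          rw [mul_div_mul_left _ _ D.t0, ← map_div₀, mul_div_mul_right _ _ (pow_ne_zero _ (hz 0))]
        rwa [h4] at h3
    exact fun x => h1 (show x ∈ (⊤ : IntermediateField k K) from trivial)
  have hy0 : ∏ _l : Fin E, z 0 ≠ 0 := Finset.prod_ne_zero_iff.2 fun _ _ => hz 0
  have htQ : D.t ∈ Q := by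
    have h1 := div_mem (hBQ _ (hZB _ (hmZ fun _ => 0))) (hcQ (∏ _l : Fin E, z 0))
    rwa [mul_div_cancel_right₀ _ ((map_ne_zero D.c).2 hy0)] at h1
  have hfr : ∀ x : K', ∃ a ∈ B, ∃ b ∈ B, b ≠ 0 ∧ x = a / b := by
    intro x
    obtain ⟨r, hr, s, hs, h4⟩ := IntermediateField.mem_adjoin_iff_div.1 (D.mem_of Q hcQ htQ x)
    by_cases h0 : s = 0
    · refine ⟨0, B.zero_mem, 1, B.one_mem, one_ne_zero, ?_⟩
      rw [h4, h0, div_zero, zero_div]
    · exact ⟨r, hr, s, hs, h0, h4⟩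
  have hSB : SR.SB ρ' B Z :=
    { inj := fun g hg => hinj g (by
        ext x
        have h1 := hρc g x
        rw [hg, AlgEquiv.one_apply] at h1
        exact (D.ci h1).symm)
      fam :=
        { ne := ⟨_, hmZ fun _ => 0⟩
          mem := hZB
          n0 := by
            intro x hx
            obtain ⟨w, hw, rfl⟩ := Finset.mem_image.1 hx
            exact mul_ne_zero D.t0 ((map_ne_zero D.c).2 (hZZn w hw))
          st := hZs }
      gen := ⟨Y, Z1, hRG⟩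
      fr := hfr }
  have hfU : Fam ρ' B U :=
    { ne := by
        obtain ⟨f, hf⟩ := hSfne
        exact ⟨_, hUm _ ((hU0 _).2 ⟨f, hf, rfl⟩)⟩
      mem := fun x hx => hZB x (hUZ hx)
      n0 := fun x hx => hSB.fam.n0 x (hUZ hx)
      st := by
        intro g x hx
        obtain ⟨w, hw, rfl⟩ := Finset.mem_image.1 hx
        rw [hρtc, hU0i w hw g]
        exact hUm w hw }
  have hInP : SF.InP ρ' B U p := by
    intro H q hq hqZ hH
    obtain ⟨x, hx, hxZ, hxq⟩ := hqZ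
    obtain ⟨j, P, hP, hPV, hPg⟩ := hIN q hq ⟨x, hx, hxZ, hxq⟩
    exact hin j P hP hPV H fun h hh => hPg h fun b hb hb' => hH h hh b hb hb'
  have htr : Transcendental D.c.fieldRange (D.t * D.c (∏ _l : Fin E, z 0)) := by
    intro h
    apply D.tr
    have h3 : IsAlgebraic D.c.fieldRange (D.c (∏ _l : Fin E, z 0))⁻¹ :=
      isAlgebraic_algebraMap (⟨_, inv_mem ⟨_, rfl⟩⟩ : D.c.fieldRange)
    have h4 := h.mul h3
    rwa [mul_inv_cancel_right₀ ((map_ne_zero D.c).2 hy0)] at h4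
  have hScl : Scl ρ' Z D.c.fieldRange (F.map D.c) (D.t * D.c (∏ _l : Fin E, z 0)) :=
    { tΦ := hmZ fun _ => 0
      tr := htr
      hΦ := by
        intro a ha
        obtain ⟨w, hw, rfl⟩ := hZF a ha
        rw [zpow_one, mul_div_mul_left _ _ D.t0]
        exact div_mem (show D.c w ∈ D.c.fieldRange from ⟨w, rfl⟩)
          (show D.c _ ∈ D.c.fieldRange from ⟨_, rfl⟩)
      st := by
        rintro g _ ⟨m, rfl⟩
        exact ⟨ρ g m, (hρc g m).symm⟩
      F := by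
        intro a
        rw [IntermediateField.mem_map]
        constructor
        · rintro ⟨m, hm, rfl⟩
          refine ⟨⟨m, rfl⟩, fun g => ?_⟩
          change ρ' g (D.c m) = D.c m
          rw [hρc, (hF m).1 hm g]
        · rintro ⟨⟨m, rfl⟩, h⟩
          refine ⟨m, (hF m).2 fun g => ?_, rfl⟩
          apply D.ci
          rw [← hρc]
          exact h g }
  have hY1 : ∀ W : ValuationSubring K', (∀ a ∈ (A.map D.c).comap (F.map D.c).val, (a : K') ∈ W) →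
      ∀ y ∈ Y, y ∈ W := by
    intro W hW y hy
    have hfinr : Finite ρ'.range := Set.finite_range ρ'
    refine Pool.Agent.Helper49.SR.mem_of_inv ρ'.range (A.map D.c) ?_ W ?_ y ?_
    · rintro _ ⟨g, rfl⟩ _ ⟨a, ha, rfl⟩
      exact ⟨ρ g a, act.A g a ha, (hρc g a).symm⟩
    · rintro _ ⟨a, ha, rfl⟩ hfix
      have haF : a ∈ F := by
        refine (hF a).2 fun g => ?_
        apply D.ci
        rw [← hρc]
        exact hfix (ρ' g) ⟨g, rfl⟩
      exact hW ⟨D.c a, ⟨a, haF, rfl⟩⟩ ⟨a, ha, rfl⟩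
    · obtain ⟨a, ha, rfl⟩ := hYA0 y hy
      exact ⟨a, ha, rfl⟩
  have ht' : D.t * D.c (∏ _l : Fin E, z 0) ≠ 0 :=
    mul_ne_zero D.t0 ((map_ne_zero D.c).2 hy0)
  -- the valuations with a centre
  let 𝒱 : Set (ValuationSubring (F.map D.c)) := {V | ∃ (f : K) (hf : f ∈ Fo A z d), f ∈ Sf ∧
    ∀ a ∈ ((QK A z hf).map D.c).comap (F.map D.c).val, a ∈ V}
  have hcv : ∀ V ∈ 𝒱, ∃ W : ValuationSubring K',
      (∀ a : F.map D.c, (a : K') ∈ W ↔ a ∈ V) ∧ Pos B U W.valuation := by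
    rintro V ⟨f, hf, hfS, hV⟩
    have hAV : ∀ a ∈ (A.map D.c).comap (F.map D.c).val, a ∈ V := by
      rintro x ⟨a, ha, hax⟩
      exact hV x ⟨a, le_QK hf ha, hax⟩
    have hGB : SF.GB ρ' B Z U := ⟨hSB.fam, hfU, hUZ, hSB.gen, hSB.fr⟩
    obtain ⟨W, hW, hpos⟩ := SF.exists_val hGB hScl hRG ht' V
      (fun c => hAV _ (Subalgebra.algebraMap_mem _ c))
      (fun W hW => hY1 W fun a ha => (hW a).2 (hAV a ha))
    refine ⟨W, hW, hpos.1, le_antisymm (mx_le fun x hx => hpos.1 x (hfU.mem x hx)) ?_⟩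
    -- an invariant of value one
    obtain ⟨l, hl1, -, hl⟩ := es_eq (v := W.valuation) hSB.fam.ne hSB.fam.n0
    rw [hpos.2, one_pow] at hl
    have hlB : es Z l ∈ B := hSB.fam.es_mem l
    have hli : ∀ g, ρ' g (es Z l) = es Z l := fun g => hSB.fam.es_inv l g
    have hlh : ∃ ψ, es Z l = D.t ^ l * D.c ψ := by
      have h1 : HF D.c.fieldRange.toSubfield D.t 1 Z := by
        intro a ha
        obtain ⟨w, hw, rfl⟩ := hZF a ha
        rw [zpow_one, mul_div_cancel_left₀ _ D.t0]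
        exact ⟨w, rfl⟩
      obtain ⟨ψ, hψ⟩ := h1.es D.t0 l
      refine ⟨ψ, ?_⟩
      have h2 : D.c ψ = es Z l / D.t ^ ((l : ℤ) * 1) := hψ
      rw [h2, mul_one, zpow_natCast, mul_div_cancel₀ _ (pow_ne_zero _ D.t0)]
    obtain ⟨ψ, hψ⟩ := hlh
    have hψF : ψ ∈ Fo A z (l * E) := form_of_mem D (B := B) rfl hYA0 hZF hlB hψ
    have hψi : ∀ g, ρ g ψ = ψ := by
      intro g
      have h1 := hli g
      rw [hψ, map_mul, map_pow, hρt, hρc] at h1
      exact D.ci (mul_left_cancel₀ (pow_ne_zero _ D.t0) h1)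
    have hfe0 : f ^ e ≠ 0 := pow_ne_zero _ (hSf0 f hfS)
    have hyF : ψ / (f ^ e) ^ l ∈ F := by
      rw [hF]
      intro g
      rw [map_div₀, map_pow, map_pow, hψi, hSfi f hfS g]
    have hyQ : ψ / (f ^ e) ^ l ∈ QK A z hf := by
      refine ⟨e * l, ?_⟩
      rw [← pow_mul, div_mul_cancel₀ _ (pow_ne_zero _ (hSf0 f hfS)),
        show d * (e * l) = l * E by rw [hEe]; ring]
      exact hψF
    have h1 : (⟨D.c (ψ / (f ^ e) ^ l), ⟨_, hyF, rfl⟩⟩ : F.map D.c) ∈ V :=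
      hV _ ⟨_, hyQ, rfl⟩
    have h2 : D.c (ψ / (f ^ e) ^ l) ∈ W := (hW _).2 h1
    have hx0 : D.t * D.c (f ^ e) ≠ 0 := mul_ne_zero D.t0 ((map_ne_zero D.c).2 hfe0)
    have h3 : D.c (ψ / (f ^ e) ^ l) = es Z l / (D.t * D.c (f ^ e)) ^ l := by
      rw [hψ, map_div₀, map_pow, mul_pow, mul_div_mul_left _ _ (pow_ne_zero _ D.t0)]
    rw [h3, ← W.valuation_le_one_iff, map_div₀, hl, map_pow,
      div_le_one₀ (zero_lt_iff.2 (pow_ne_zero _ ((Valuation.ne_zero_iff _).2 hx0)))] at h2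
    have h4 : 1 ≤ W.valuation (D.t * D.c (f ^ e)) := by
      by_contra hcon
      have h5 := pow_lt_one₀ zero_le (not_le.1 hcon) (by omega : l ≠ 0)
      exact absurd h2 (not_le.2 h5)
    exact h4.trans (le_mx (hUm _ ((hU0 _).2 ⟨f, hfS, rfl⟩)))
  obtain ⟨I, hI, w, J, hw, hws, hwV, hwW⟩ := pmv_of_SB (Z := Z) hSB hfU hUZ hLL hInP hScl ht' 𝒱 hcv
  have hm2 : PMS {R | ∃ (f : K) (hf : f ∈ Fo A z d), f ∈ Sf ∧
      R = ((QK A z hf).map D.c).comap (F.map D.c).val} := by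
    obtain ⟨f0, hf0⟩ := hSfne
    obtain ⟨t0, ht0, -⟩ := hwV ⊤ ⟨f0, hSf f0 hf0, hf0, fun _ _ => trivial⟩
    refine ⟨I, hI, w, J, ⟨t0, ht0⟩, hw, ?_, ?_⟩
    · rintro R ⟨f, hf, hfS, rfl⟩ V hV
      exact hwV V ⟨f, hf, hfS, hV⟩
    · rintro t ht R ⟨f, hf, hfS, rfl⟩
      obtain ⟨⟨⟨δ, ee⟩, hee⟩, hW⟩ := hwW t ht
      exact smooth_of_pmv D hE (B := B) rfl hYA0 hZF hcA (fun m => hZB _ (hmZ m)) hF hy0
        (hws t ht) hee hW hf (hSf0 f hfS) (hSfi f hfS)
  refine hm2.iso (F.equivMap D.c).symm ?_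
  rintro R ⟨f, hf, hfS, rfl⟩
  exact ⟨f, hf, hfS, comap_symm D.c F _⟩

end main

end Pool.Agent.Helper49.SF
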