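import Pool.Agent.Helper49.SQ.Def

/-!
# Systems of coordinates, version with two families
-/

set_option autoImplicit false
set_option linter.unusedSectionVars false

namespace Pool.Agent.Helper49.SF

open Finset Pool.Agent.W559.Mg Pool.Agent.Helper46.AQ Pool.Agent.Helper49.PQ Pointwise
  Pool.Agent.Helper49.SQ

section sys

variable {k K : Type} [Field k] [Field K] [Algebra k K] {G : Type} [Group G]
  {Λ : Type} [Fintype Λ] {ι : Type} [Fintype ι]

/-- Systems of coordinates for permuted families; `Z` is the family for the valuations and `Zh`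
the family for the degrees. -/
structure LSys (ρ : G →* (K ≃ₐ[k] K)) (B : Subalgebra k K) (Z Zh : Finset K) (Fl : Λ → Finset K)
    (A B' : ι → Finset K) (Ex : ι → ι → Prop) (N : ℕ → ι → ℕ) : Prop where
  pc : PC ρ B Z A B'
  irr : ∀ i, ¬ Ex i i
  sym : ∀ i j, Ex i j → Ex j i
  mono : ∀ j j' i, j ≤ j' → N j i ≤ N j' i
  en : ∀ (Γ : Type) [LinearOrderedCommGroupWithZero Γ] (v : Valuation K Γ), Pos B Z v →
    ∃ ps : Λ ≃ Fin (Fintype.card Λ), ∀ l, mx v (Fl l) = mz (al A B' v) (vz (N (ps l)))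
  ex : ∀ (Γ : Type) [LinearOrderedCommGroupWithZero Γ] (v : Valuation K Γ), Pos B Z v →
    ∀ i j, Ex i j → al A B' v i = 1 ∨ al A B' v j = 1
  un : ∀ (Γ : Type) [LinearOrderedCommGroupWithZero Γ] (v : Valuation K Γ), Pos B Z v →
    ∀ ξ : ι → Γ, (∀ i, ξ i ≠ 0) → (∀ i, ξ i ≤ 1) → (∀ i j, Ex i j → ξ i = 1 ∨ ξ j = 1) →
      ∀ ps : Λ ≃ Fin (Fintype.card Λ), (∀ l, mx v (Fl l) = mz ξ (vz (N (ps l)))) →
        ξ = al A B' v
  la : ∃ c : Option (ι ⊕ ι) → ι → ℤ, LA B Z A B' c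
  hm : ∀ (K0 : Subfield K) (t : K), t ≠ 0 → HF K0 t 1 Zh → ∃ δ : ι → ℤ,
    ∀ i, HF K0 t (δ i) (A i) ∧ HF K0 t (δ i) (B' i)

end sys

/-- Near every prime ideal of `B` which does not contain `U` there are etale coordinates in `Z`
whose span is stable under the inertia group. -/
def LLU {k K : Type} [Field k] [Field K] [Algebra k K] {G : Type} [Group G]
    (ρ : G →* (K ≃ₐ[k] K)) (B : Subalgebra k K) (Z U : Finset K) : Prop :=
  ∀ q : Ideal B, q.IsPrime → (∃ (z : K) (hz : z ∈ B), z ∈ U ∧ (⟨z, hz⟩ : B) ∉ q) →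
    ∃ (f : K) (hf : f ∈ B), (⟨f, hf⟩ : B) ∉ q ∧
    ∃ (n : ℕ) (x : Fin n → lc B f hf),
      ((MvPolynomial.aeval x : MvPolynomial (Fin n) k →ₐ[k] lc B f hf).toRingHom).Etale ∧
      (∀ j, (x j : K) ∈ Z) ∧
      ∀ h : G, (∀ c, c ∈ B → ∀ hc : ρ h c - c ∈ B, (⟨ρ h c - c, hc⟩ : B) ∈ q) →
        ρ h f = f ∧ ∀ j, ρ h (x j : K) ∈ Submodule.span k (Set.range fun j => (x j : K))

end Pool.Agent.Helper49.SF
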