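import Pool.Agent.Helper49.SF.Asm2
import Pool.Agent.Helper49.SE.El1
import Pool.Agent.Helper49.SE.Cd
import Pool.Agent.Helper85.SE.Local
import Pool.Agent.Helper33.SE.Inertia
import Pool.Agent.Helper38.SE.Cone2

/-!
# Resolutions of quotients of quasi-projective varieties
-/

set_option autoImplicit false
set_option linter.unusedSectionVars false

namespace Pool.Agent.Helper49.SF

open Finset Pool.Agent.W559.Mg Pool.Agent.W559.Et Pool.Agent.Helper49.SQ
  Pool.Agent.Helper59.SE Pool.Agent.Helper49.SE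
open AlgebraicGeometry CategoryTheory Pool.Agent.T6.H74.GC

section grp

variable {k K : Type} [Field k] [Field K] [Algebra k K] {G : Type} [Group G] [Finite G]

/-- The inertia group of a local ring. -/
def IGrp (ρ : G →* (K ≃ₐ[k] K)) {B : Subalgebra k K} (q : Ideal B) (hq : q.IsPrime) :
    Subgroup G where
  carrier := {g | InG ρ (locR B q hq) g}
  one_mem' := Pool.Agent.Helper85.SE.inG_one _
  mul_mem' := fun hg hh => Pool.Agent.Helper85.SE.inG_mul hq hg hh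
  inv_mem' := by
    intro g hg
    let M : Submonoid G := ⟨⟨{g | InG ρ (locR B q hq) g}, fun hg hh =>
      Pool.Agent.Helper85.SE.inG_mul hq hg hh⟩, Pool.Agent.Helper85.SE.inG_one _⟩
    have h1 : g⁻¹ ∈ Submonoid.powers g :=
      ((isOfFinOrder_of_finite g).mem_powers_iff_mem_zpowers).2
        (Subgroup.inv_mem _ (Subgroup.mem_zpowers g))
    have h2 : Submonoid.powers g ≤ M := by
      rw [Submonoid.powers_le]
      exact hg
    exact h2 h1

lemma mem_IGrp {ρ : G →* (K ≃ₐ[k] K)} {B : Subalgebra k K} {q : Ideal B} {hq : q.IsPrime}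
    {g : G} : g ∈ IGrp ρ q hq ↔ InG ρ (locR B q hq) g := Iff.rfl

end grp

section qk

variable {k K : Type} [Field k] [Field K] [Algebra k K] {N : ℕ}

/-- Powers of the form define the same open subset. -/
lemma QK_pow (A : Subalgebra k K) (z : Fin (N + 1) → K) {d : ℕ} {h : K} (hh : h ∈ Fo A z d)
    {a : ℕ} (ha : 0 < a) (D : ℕ) (hD : D = d * a) (h' : K) (hh' : h' ∈ Fo A z D)
    (he : h' = h ^ a) : QK A z hh' = QK A z hh := by
  subst hD he
  apply le_antisymm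
  · rintro y ⟨n, hn⟩
    refine ⟨a * n, ?_⟩
    rw [← pow_mul] at hn
    rwa [mul_assoc] at hn
  · rintro y ⟨n, hn⟩
    obtain ⟨b, rfl⟩ := Nat.exists_eq_succ_of_ne_zero ha.ne'
    refine ⟨n, ?_⟩
    have h1 := fo_mul A z hn (fo_pow' A z hh (b * n))
    rw [show y * h ^ n * h ^ (b * n) = y * (h ^ (b + 1)) ^ n by
      rw [← pow_mul, mul_assoc, ← pow_add]; congr 2; ring] at h1
    rwa [show d * n + d * (b * n) = d * (b + 1) * n by ring] at h1

end qk

section fin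

variable {k K : Type} [Field k] [Field K] [Algebra k K] {N : ℕ} {G : Type} [Group G] [Finite G]

/-- Resolutions of quotients of quasi-projective varieties. -/
theorem resolution (hcone : ConeG2Stm) (hfin : Finite2Stm) (hchg : ChgStm) (hgl : Glob2Stm)
    (p : ℕ) [Fact p.Prime] [PerfectField k] [CharP k p] (A : Subalgebra k K) (hfg : A.FG)
    (z : Fin (N + 1) → K)
    (ρ : G →* (K ≃ₐ[k] K)) (act : Act ρ A z) (hinj : ∀ g, ρ g = 1 → g = 1)
    (htop : IntermediateField.adjoin k ((A : Set K) ∪ {x | ∃ i j, x = z i / z j}) = ⊤)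
    (F : IntermediateField k K) (hF : ∀ a, a ∈ F ↔ ∀ g, ρ g a = a)
    (X : Scheme.{0}) (f : X ⟶ Spec (CommRingCat.of k)) [QuasiCompact f] [IsSeparated f]
    [AlgebraicGeometry.IsIntegral X] (φ : X.functionField ≃+* F) (hφ : IsLinear f φ)
    (hX : ∀ x : X, ∃ U : X.Opens, IsAffineOpen U ∧ x ∈ U ∧ ∃ (d : ℕ) (h : K) (hh : h ∈ Fo A z d),
      0 < d ∧ h ≠ 0 ∧ (∀ g, ρ g h = h) ∧
      functionsOn φ U = ((QK A z hh).comap F.val : Subalgebra k F) ∧
      ∀ (Q : Ideal (QK A z hh)) (hQ : Q.IsPrime),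
        LinG ρ (locR (QK A z hh) Q hQ) ∧ ¬ p ^ 2 ∣ Nat.card (IGrp ρ Q hQ)) :
    ∃ (Y : Scheme.{0}) (π : Y ⟶ X), AlgebraicGeometry.IsIntegral Y ∧
      AlgebraicGeometry.IsProper π ∧ AlgebraicGeometry.Smooth (π ≫ f) ∧
      ∃ U : X.Opens, Dense (U : Set X) ∧ IsIso (π ∣_ U) := by
  classical
  choose U hUa hxU d h hh hd h0 hinv hfun hloc using hX
  have hcomp : CompactSpace X := QuasiCompact.compactSpace_of_compactSpace f
  obtain ⟨T, hT⟩ := isCompact_univ.elim_nhds_subcover (fun x => (U x : Set X))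
    (fun x _ => (U x).isOpen.mem_nhds (hxU x))
  have hTne : T.Nonempty := by
    obtain ⟨x⟩ : Nonempty X := inferInstance
    have h1 := hT.2 (Set.mem_univ x)
    rw [Set.mem_iUnion₂] at h1
    obtain ⟨y, hy, -⟩ := h1
    exact ⟨y, hy⟩
  -- one degree
  let D : ℕ := ∏ x ∈ T, d x
  have hD : 0 < D := Finset.prod_pos fun x _ => hd x
  have hDx : ∀ x ∈ T, ∃ a, 0 < a ∧ D = d x * a := by
    intro x hx
    obtain ⟨a, ha⟩ := Finset.dvd_prod_of_mem d hx
    refine ⟨a, ?_, ha⟩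
    rcases Nat.eq_zero_or_pos a with h1 | h1
    · exfalso
      have h2 : D = d x * a := ha
      rw [h1, mul_zero] at h2
      exact hD.ne' h2
    · exact h1
  let a : X → ℕ := fun x => D / d x
  have haD : ∀ x ∈ T, 0 < a x ∧ D = d x * a x := by
    intro x hx
    obtain ⟨b, hb, hb'⟩ := hDx x hx
    have h1 : a x = b := by
      change D / d x = b
      rw [hb', Nat.mul_div_cancel_left _ (hd x)]
    rw [h1]
    exact ⟨hb, hb'⟩
  let Sf : Finset K := T.image fun x => h x ^ a x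
  have hSfm : ∀ y, y ∈ Sf ↔ ∃ x ∈ T, h x ^ a x = y := fun y => Finset.mem_image
  have hSfF : ∀ x ∈ T, h x ^ a x ∈ Fo A z D := by
    intro x hx
    rw [(haD x hx).2]
    exact fo_pow' A z (hh x) (a x)
  have hSf : ∀ y ∈ Sf, y ∈ Fo A z D := by
    intro y hy
    obtain ⟨x, hx, rfl⟩ := (hSfm y).1 hy
    exact hSfF x hx
  have hSf0 : ∀ y ∈ Sf, y ≠ 0 := by
    intro y hy
    obtain ⟨x, hx, rfl⟩ := (hSfm y).1 hy
    exact pow_ne_zero _ (h0 x)
  have hSfi : ∀ y ∈ Sf, ∀ g, ρ g y = y := by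
    intro y hy g
    obtain ⟨x, hx, rfl⟩ := (hSfm y).1 hy
    rw [map_pow, hinv x g]
  have hQK : ∀ x (hx : x ∈ T), QK A z (hSfF x hx) = QK A z (hh x) := fun x hx =>
    QK_pow A z (hh x) (haD x hx).1 D (haD x hx).2 _ (hSfF x hx) rfl
  -- the local rings
  have hkey : ∀ (j : Fin (N + 1)) (q : Ideal (Ch A z j)) (hq : q.IsPrime), InV A z Sf D j q →
      LinG ρ (locR (Ch A z j) q hq) ∧
      ∀ H : Subgroup G, (∀ h ∈ H, InG ρ (locR (Ch A z j) q hq) h) → ¬ p ^ 2 ∣ Nat.card H := by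
    rintro j q hq ⟨y, hy, hyc, hyq⟩
    obtain ⟨x, hx, rfl⟩ := (hSfm y).1 hy
    obtain ⟨Q, hQ, hQe⟩ := hchg k K N A z act.z0 D (h x ^ a x) (hSfF x hx) hD
      (pow_ne_zero _ (h0 x)) j q hq hyc hyq
    have h1 : ∀ (B : Subalgebra k K) (_ : B = QK A z (hh x)) (Q : Ideal B) (hQ : Q.IsPrime),
        LinG ρ (locR B Q hQ) ∧ ¬ p ^ 2 ∣ Nat.card (IGrp ρ Q hQ) := by
      rintro B rfl Q hQ
      exact hloc x Q hQ
    obtain ⟨h2, h3⟩ := h1 _ (hQK x hx) Q hQ
    rw [← hQe]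
    refine ⟨h2, fun H hH hdv => h3 (hdv.trans (Subgroup.card_dvd_of_le fun g hg => ?_))⟩
    exact hH g hg
  -- the models
  have hm := models hcone hfin (mkCK k K) p A hfg z ρ act hinj htop Sf D hD hSf hSf0 hSfi
    (hTne.image _) (fun j q hq hV => (hkey j q hq hV).1) (fun j q hq hV => (hkey j q hq hV).2) F hF
  obtain ⟨I, hI, w, J, hJ, hw, hwV, hws⟩ := hm
  refine hgl k F I w hw J hJ X f φ hφ fun x => ?_
  have h1 := hT.2 (Set.mem_univ x)
  rw [Set.mem_iUnion₂] at h1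
  obtain ⟨y, hy, hxy⟩ := h1
  have hmem : ((QK A z (hSfF y hy)).comap F.val : Subalgebra k F) ∈
      {R | ∃ (f : K) (hf : f ∈ Fo A z D), f ∈ Sf ∧ R = (QK A z hf).comap F.val} :=
    ⟨_, hSfF y hy, (hSfm _).2 ⟨y, hy, rfl⟩, rfl⟩
  refine ⟨U y, hUa y, hxy, (QK A z (hSfF y hy)).comap F.val, ?_, hwV _ hmem,
    fun t ht => hws t ht _ hmem⟩
  rw [hfun y, hQK y hy]

end fin

end Pool.Agent.Helper49.SF
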