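import Pool.Agent.Helper49.SF.Gd
import Pool.Agent.Helper12.PN.Gauss

/-!
# The charts are graded
-/

set_option autoImplicit false
set_option linter.unusedSectionVars false

namespace Pool.Agent.Helper49.SF

open Finset Pool.Agent.W559.Mg Pool.Agent.Helper46.AQ Pool.Agent.Helper49.PQ Pointwise
  Pool.Agent.Helper49.SQ Pool.Agent.Helper49.SR

section laur

variable {k K : Type} [Field k] [Field K] [Algebra k K] {K0 : IntermediateField k K} {t : K}

/-- Elements which are in all valuation rings containing `K0`, `t` and `1 / t` are Laurent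
polynomials. -/
lemma laurent (htr : Transcendental K0 t) (ht : t ≠ 0)
    (hfr : ∀ x : K, ∃ p q : Polynomial K0, x = Polynomial.aeval t p / Polynomial.aeval t q)
    (x : K) (hx : ∀ V : ValuationSubring K, (∀ a : K0, (a : K) ∈ V) → t ∈ V → t⁻¹ ∈ V → x ∈ V) :
    ∃ (S : Finset ℤ) (c : ℤ → K0), x = ∑ d ∈ S, (c d : K) * t ^ d := by
  classical
  set S : Subalgebra K0 K := (Polynomial.aeval (R := K0) t).range with hS
  have htS : t ∈ S := ⟨Polynomial.X, Polynomial.aeval_X t⟩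
  set R : Subalgebra K0 K := Algebra.adjoin K0 ({t, t⁻¹} : Set K) with hR
  have h1 : IsIntegral R x := isIntegral_of_val R x fun V hV =>
    hx V (fun a => hV _ (R.algebraMap_mem a))
      (hV _ (Algebra.subset_adjoin (Set.mem_insert _ _)))
      (hV _ (Algebra.subset_adjoin (Set.mem_insert_of_mem _ rfl)))
  have h2 : R ≤ lc S t htS := by
    refine Algebra.adjoin_le ?_
    rintro _ (rfl | rfl)
    · exact le_lc S _ htS htS
    · exact inv_mem_lc S _ _ htS (mul_inv_cancel₀ ht)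
  obtain ⟨n, hn⟩ := exists_pow_integral R S t ht htS (fun r hr => h2 hr) x h1
  have e : Polynomial K0 ≃+* S :=
    (AlgEquiv.ofInjective (Polynomial.aeval (R := K0) t)
      (transcendental_iff_injective.1 htr)).toRingEquiv
  have hIC : IsIntegrallyClosed S := IsIntegrallyClosed.of_equiv e
  have hFr : IsFractionRing S K := IsFractionRing.of_field S K fun z => by
    obtain ⟨p, q, h⟩ := hfr z
    exact ⟨⟨_, p, rfl⟩, ⟨_, q, rfl⟩, h⟩
  obtain ⟨⟨y, p, hp⟩, hy⟩ := (IsIntegrallyClosed.isIntegral_iff (R := S) (K := K)).1 hn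
  have h3 : Polynomial.aeval t p = t ^ n * x := by
    have h4 : y = t ^ n * x := hy
    rw [← h4]
    exact hp
  refine ⟨(Finset.range (p.natDegree + 1)).image fun i : ℕ => (i : ℤ) - n,
    fun d => p.coeff (d + n).toNat, ?_⟩
  rw [Finset.sum_image (fun a _ b _ hab => by simpa using hab)]
  have h5 : x = t ^ (-(n : ℤ)) * Polynomial.aeval t p := by
    rw [h3, zpow_neg, zpow_natCast, ← mul_assoc, inv_mul_cancel₀ (pow_ne_zero _ ht), one_mul]
  rw [h5, Polynomial.aeval_eq_sum_range, Finset.mul_sum]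
  refine Finset.sum_congr rfl fun i _ => ?_
  have h6 : ((i : ℤ) - n + n).toNat = i := by simp
  beta_reduce
  rw [h6, Algebra.smul_def, zpow_sub₀ ht, zpow_neg, zpow_natCast, zpow_natCast]
  change (t ^ n)⁻¹ * ((p.coeff i : K) * t ^ i) = _
  ring

end laur

variable {k K : Type} [Field k] [Field K] [Algebra k K] [DecidableEq K] {G : Type} [Group G]
  {ρ : G →* (K ≃ₐ[k] K)} {B : Subalgebra k K} {Z U : Finset K} {ι : Type} [Fintype ι]
  [DecidableEq ι] {A B' : ι → Finset K} {K0 : IntermediateField k K} {t : K}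

/-- All elements are quotients of polynomials. -/
lemma frac_poly (hb : GB ρ B Z U) (ht : t ≠ 0) (hΦ : HF K0.toSubfield t 1 Z) (x : K) :
    ∃ p q : Polynomial K0, x = Polynomial.aeval t p / Polynomial.aeval t q := by
  have h1 : B ≤ ((Polynomial.aeval (R := K0) t).range).restrictScalars k := by
    obtain ⟨Y, Z1, hr⟩ := hb.gen
    refine hr.le (fun a ha => ?_) fun y hy =>
      ⟨Polynomial.C ⟨y, hr.hom0 hb.fam.ne hb.fam.n0 ht hΦ hy⟩, Polynomial.aeval_C _ _⟩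
    have h2 : a / t ^ (1 : ℤ) ∈ K0 := hΦ a ha
    rw [zpow_one] at h2
    refine ⟨Polynomial.C ⟨a / t, h2⟩ * Polynomial.X, ?_⟩
    change Polynomial.aeval t _ = a
    rw [map_mul, Polynomial.aeval_C, Polynomial.aeval_X]
    change a / t * t = a
    rw [div_mul_cancel₀ _ ht]
  obtain ⟨a, ha, b, hb', -, rfl⟩ := hb.fr x
  obtain ⟨p, hp⟩ := h1 ha
  obtain ⟨q, hq⟩ := h1 hb'
  exact ⟨p, q, by rw [← hp, ← hq]; rfl⟩

/-- The values of homogeneous elements for the valuations which are trivial on `K0`. -/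
lemma val_hom {Γ : Type} [LinearOrderedCommGroupWithZero Γ] {v : Valuation K Γ}
    (h0 : ∀ a : K, a ∈ K0 → a ≠ 0 → v a = 1) (h1 : v t = 1) (ht : t ≠ 0) {a : K} (ha : a ≠ 0) {d : ℤ}
    (h : a / t ^ d ∈ K0) : v a = 1 := by
  have h2 := h0 _ h (div_ne_zero ha (zpow_ne_zero _ ht))
  rwa [map_div₀, map_zpow₀, h1, one_zpow, div_one] at h2

/-- The coefficients of the elements of a chart are Laurent polynomials. -/
lemma coeff_laurent {L : Type} [AddCommGroup L] {dg : L ≃+ (ι → ℤ)} (hb : GB ρ B Z U)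
    (hS : GS ρ B Z U A B') (ht : t ≠ 0) (htr : Transcendental K0 t)
    (hΦ : HF K0.toSubfield t 1 Z) (D : Tp U A B') {f : ML K L} (hf : f ∈ CC dg hS.pc D) (m : L) :
    ∃ (S : Finset ℤ) (c : ℤ → K0), f.coeff m = ∑ d ∈ S, (c d : K) * t ^ d := by
  refine laurent htr ht (frac_poly hb ht hΦ) _ fun V hK0 htV htV' => ?_
  set v := V.valuation with hv
  obtain ⟨δ, hδ⟩ := hS.hm K0.toSubfield t ht hΦ
  obtain ⟨δ', -, -, hδ'⟩ := exists_deg hS ht hΦ
  have h0 : ∀ a : K, a ∈ K0 → a ≠ 0 → v a = 1 := by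
    intro a ha ha0
    refine le_antisymm ((V.valuation_le_one_iff _).2 (hK0 ⟨a, ha⟩)) ?_
    have h1 := (V.valuation_le_one_iff _).2 (hK0 ⟨a⁻¹, K0.inv_mem ha⟩)
    rw [← hv] at h1
    change v a⁻¹ ≤ 1 at h1
    rw [map_inv₀, inv_le_one₀ (zero_lt_iff.2 ((Valuation.ne_zero_iff _).2 ha0))] at h1
    exact h1
  have h1 : v t = 1 := by
    refine le_antisymm ((V.valuation_le_one_iff _).2 htV) ?_
    have h1 := (V.valuation_le_one_iff _).2 htV'
    rw [← hv, map_inv₀, inv_le_one₀ (zero_lt_iff.2 ((Valuation.ne_zero_iff _).2 ht))] at h1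
    exact h1
  have hmx : ∀ (Ψ : Finset K) (d : ℤ), Ψ.Nonempty → (∀ a ∈ Ψ, a ≠ 0) →
      HF K0.toSubfield t d Ψ → mx v Ψ = 1 := by
    intro Ψ d hne hn0 hΨ
    obtain ⟨a, ha, h2⟩ := exists_mx (v := v) hne
    rw [h2]
    exact val_hom h0 h1 ht (hn0 a ha) (hΨ a ha)
  have hmΦ : mx v U = 1 := hmx U 1 hb.fU.ne hb.fU.n0 fun a ha => hΦ a (hb.uz ha)
  have hpos : Pos B U v := by
    have h2 : ∀ a ∈ Z, v a = 1 := fun a ha => val_hom h0 h1 ht (hb.fam.n0 a ha) (hΦ a ha)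
    obtain ⟨Y, Z1, hr⟩ := hb.gen
    refine ⟨(hr.pos (fun r => ?_) (fun a ha => (h2 a ha).le) (fun y hy => ?_) ?_).1, hmΦ⟩
    · exact (V.valuation_le_one_iff _).2 (hK0 ⟨_, K0.algebraMap_mem r⟩)
    · exact (V.valuation_le_one_iff _).2 (hK0 ⟨y, hr.hom0 hb.fam.ne hb.fam.n0 ht hΦ hy⟩)
    · obtain ⟨a, ha⟩ := hb.fam.ne
      exact ⟨a, ha, h2 a ha⟩
  have hvd : Vd B v D := by
    refine ⟨hpos, fun j => ?_⟩
    rw [val_hom h0 h1 ht (hh_ne D j) (hδ' D j)]
    have h2 : mx v (fm U A B' j) = 1 := by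
      rcases j with _ | i | i
      · exact hmΦ
      · exact hmx _ _ (hS.pc.fA i).ne (hS.pc.fA i).n0 (hδ i).1
      · exact hmx _ _ (hS.pc.fB i).ne (hS.pc.fB i).n0 (hδ i).2
    rw [h2, one_pow]
  have h3 := hf _ v hvd m
  have h4 : nm A B' v (dg m) = 1 := by
    unfold nm al
    refine Finset.prod_eq_one fun i _ => ?_
    rw [hmx _ _ (hS.pc.fA i).ne (hS.pc.fA i).n0 (hδ i).1,
      hmx _ _ (hS.pc.fB i).ne (hS.pc.fB i).n0 (hδ i).2, div_one, one_zpow]
  rw [h4] at h3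
  exact (V.valuation_le_one_iff _).1 h3

/-- The components of the elements of a chart are in the chart. -/
lemma comp_mem {L : Type} [AddCommGroup L] {dg : L ≃+ (ι → ℤ)} (hb : GB ρ B Z U)
    (hS : GS ρ B Z U A B') (ht : t ≠ 0) (htr : Transcendental K0 t)
    (hΦ : HF K0.toSubfield t 1 Z) (D : Tp U A B') {f : ML K L} (hf : f ∈ CC dg hS.pc D) (m : L)
    (S : Finset ℤ) (c : ℤ → K0) (hfm : f.coeff m = ∑ d ∈ S, (c d : K) * t ^ d) (d : ℤ)
    (hd : d ∈ S) : mo m ((c d : K) * t ^ d) ∈ CC dg hS.pc D := by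
  classical
  rw [mo_mem_CC]
  intro Γ _ w hw
  obtain ⟨δ, hδ⟩ := hS.hm K0.toSubfield t ht hΦ
  obtain ⟨s, hsU, hs1⟩ := exists_mx (v := w) hb.fU.ne
  have hs : s ∈ Z := hb.uz hsU
  have hws : w s = 1 := by
    rw [← hs1]
    exact hw.1.2
  have hs0 : s ≠ 0 := hb.fam.n0 s hs
  have hu : s / t ∈ K0 := by
    have h1 : s / t ^ (1 : ℤ) ∈ K0 := hΦ s hs
    rwa [zpow_one] at h1
  have hu0 : s / t ≠ 0 := div_ne_zero hs0 ht
  have hst : s = (s / t) * t := by rw [div_mul_cancel₀ _ ht]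
  -- `s` is transcendental
  have hstr : Transcendental K0 s := by
    intro h1
    apply htr
    have h2 : IsAlgebraic K0 ((s / t)⁻¹ * s) := by
      have h3 : IsAlgebraic K0 (s / t)⁻¹ :=
        isAlgebraic_algebraMap (⟨(s / t)⁻¹, K0.inv_mem hu⟩ : K0)
      exact h3.mul h1
    have h4 : (s / t)⁻¹ * s = t := by
      rw [inv_div, div_mul_cancel₀ _ hs0]
    rwa [h4] at h2
  let V : ValuationSubring K0.toSubfield :=
    (w.comap (algebraMap K0.toSubfield K)).valuationSubring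
  have hV : ∀ a : K0.toSubfield, a ∈ V ↔ w (a : K) ≤ 1 := fun a => Iff.rfl
  obtain ⟨W, hW1, hW2, hW3, hW4⟩ :=
    Pool.Agent.Helper12.PN.exists_gauss K0.toSubfield s hstr V
  set v := W.valuation with hv
  have hvs : v s = 1 := by
    refine le_antisymm ((W.valuation_le_one_iff _).2 hW2) ?_
    have h1 := (W.valuation_le_one_iff _).2 hW3
    rw [← hv, map_inv₀, inv_le_one₀ (zero_lt_iff.2 ((Valuation.ne_zero_iff _).2 hs0))] at h1
    exact h1
  have hcmp : ∀ a : K, a ∈ K0 → (v a ≤ 1 ↔ w a ≤ 1) := fun a ha => by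
    rw [hv, W.valuation_le_one_iff]
    exact (hW1 ⟨a, ha⟩).trans (hV _)
  have hle : ∀ (a b : K) (d : ℤ), b ≠ 0 → a / t ^ d ∈ K0 → b / t ^ d ∈ K0 →
      (v a ≤ v b ↔ w a ≤ w b) := by
    intro a b d hb0 ha hb'
    have h1 : a / b ∈ K0 := by
      have := K0.div_mem ha hb'
      rwa [div_div_div_cancel_right₀ (zpow_ne_zero _ ht)] at this
    have h2 := hcmp _ h1
    rwa [map_div₀, map_div₀, div_le_one₀ (zero_lt_iff.2 ((Valuation.ne_zero_iff _).2 hb0)),
      div_le_one₀ (zero_lt_iff.2 ((Valuation.ne_zero_iff _).2 hb0))] at h2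
  -- the families
  have hmx : ∀ (Ψ : Finset K) (d : ℤ), Ψ.Nonempty → (∀ a ∈ Ψ, a ≠ 0) →
      HF K0.toSubfield t d Ψ → ∃ a ∈ Ψ, mx w Ψ = w a ∧ mx v Ψ = v a := by
    intro Ψ d hne hn0 hΨ
    obtain ⟨a, ha, h2⟩ := exists_mx (v := w) hne
    refine ⟨a, ha, h2, le_antisymm (mx_le fun b hb' => ?_) (le_mx ha)⟩
    rw [hle b a d (hn0 a ha) (hΨ b hb') (hΨ a ha), ← h2]
    exact le_mx hb'
  have hpos : Pos B U v := by
    obtain ⟨Y, Z1, hr⟩ := hb.gen
    have hpZ : ∀ b ∈ B, v b ≤ 1 := by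
      refine (hr.pos (fun r => ?_) (fun a ha => ?_) (fun y hy => ?_) ⟨s, hs, hvs⟩).1
      · exact (hcmp _ (K0.algebraMap_mem r)).2 (hw.1.1 _ (B.algebraMap_mem r))
      rotate_left
      · exact (hcmp _ (hr.hom0 hb.fam.ne hb.fam.n0 ht hΦ hy)).2 (hw.1.1 _ (hr.Y_mem hy))
      · rw [← hvs, hle a s 1 hs0 (hΦ a ha) (hΦ s hs), hws]
        exact hw.1.1 _ (hb.fam.mem a ha)
    refine ⟨hpZ, le_antisymm (mx_le fun a ha => hpZ a (hb.fU.mem a ha)) ?_⟩
    rw [← hvs]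
    exact le_mx hsU
  have hdeg : ∀ j, ∃ d : ℤ, HF K0.toSubfield t d (fm U A B' j) := by
    rintro (_ | i | i)
    · exact ⟨1, fun a ha => hΦ a (hb.uz ha)⟩
    · exact ⟨_, (hδ i).1⟩
    · exact ⟨_, (hδ i).2⟩
  have hvd : Vd B v D := by
    refine ⟨hpos, fun j => ?_⟩
    obtain ⟨d, hdj⟩ := hdeg j
    obtain ⟨a, ha, ha1, ha2⟩ := hmx _ d (hS.pc.fam j).ne (hS.pc.fam j).n0 hdj
    have h1 := hom_pow ht (hdj.es ht (D.1 j)) (EE U A B' / D.1 j)
    have h2 : ((EE U A B' / (D.1 j : ℕ) : ℕ) : ℤ) * (((D.1 j : ℕ) : ℤ) * d) =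
        (EE U A B' : ℤ) * d := by
      rw [← mul_assoc, ← Nat.cast_mul, Nat.div_mul_cancel (dvd_EE D j)]
    rw [h2] at h1
    have h3 : hh D j / t ^ ((EE U A B' : ℤ) * d) ∈ K0 := h1
    have h4 : a ^ EE U A B' / t ^ ((EE U A B' : ℤ) * d) ∈ K0 := hom_pow ht (hdj a ha) _
    have ha0 : a ≠ 0 := (hS.pc.fam j).n0 a ha
    have h5 : w (hh D j) = w (a ^ EE U A B') := by
      rw [hw.2 j, ha1, map_pow]
    rw [ha2, ← map_pow]
    apply le_antisymm
    · rw [hle _ _ _ (pow_ne_zero _ ha0) h3 h4, h5]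
    · rw [hle _ _ _ (hh_ne D j) h4 h3, h5]
  -- the norms of the monomials
  choose α hα hα1 hα2 using fun i => hmx _ _ (hS.pc.fA i).ne (hS.pc.fA i).n0 (hδ i).1
  choose β hβ hβ1 hβ2 using fun i => hmx _ _ (hS.pc.fB i).ne (hS.pc.fB i).n0 (hδ i).2
  set e : K := ∏ i, (α i / β i) ^ (dg m) i with he
  have hα0 : ∀ i, α i ≠ 0 := fun i => (hS.pc.fA i).n0 _ (hα i)
  have hβ0 : ∀ i, β i ≠ 0 := fun i => (hS.pc.fB i).n0 _ (hβ i)
  have he0 : e ≠ 0 :=
    Finset.prod_ne_zero_iff.2 fun i _ => zpow_ne_zero _ (div_ne_zero (hα0 i) (hβ0 i))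
  have heK : e ∈ K0 := by
    refine prod_mem fun i _ => zpow_mem ?_ _
    have := K0.div_mem ((hδ i).1 _ (hα i)) ((hδ i).2 _ (hβ i))
    rwa [div_div_div_cancel_right₀ (zpow_ne_zero _ ht)] at this
  have hew : w e = nm A B' w (dg m) := by
    rw [he, map_prod]
    unfold nm al
    refine Finset.prod_congr rfl fun i _ => ?_
    rw [map_zpow₀, map_div₀, hα1, hβ1]
  have hev : v e = nm A B' v (dg m) := by
    rw [he, map_prod]
    unfold nm al
    refine Finset.prod_congr rfl fun i _ => ?_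
    rw [map_zpow₀, map_div₀, hα2, hβ2]
  have h1 := hf _ v hvd m
  rw [← hev] at h1
  have h2 : f.coeff m / e ∈ W := by
    rw [← W.valuation_le_one_iff, ← hv, map_div₀,
      div_le_one₀ (zero_lt_iff.2 ((Valuation.ne_zero_iff _).2 he0))]
    exact h1
  -- the expansion in powers of `s`
  have hcK : ∀ d : ℤ, (c d : K) * (s / t) ^ (-d) / e ∈ K0 := fun d =>
    K0.div_mem (K0.mul_mem (c d).2 (zpow_mem hu _)) heK
  have h3 : f.coeff m / e = ∑ d ∈ S,
      (((fun d => ⟨(c d : K) * (s / t) ^ (-d) / e, hcK d⟩ : ℤ → K0.toSubfield) d : K)) *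
        s ^ d := by
    rw [hfm, Finset.sum_div]
    refine Finset.sum_congr rfl fun d _ => ?_
    change _ = ((c d : K) * (s / t) ^ (-d) / e) * s ^ d
    rw [div_zpow, zpow_neg, zpow_neg]
    field_simp
  rw [h3] at h2
  have h4 := hW4 S _ h2 d hd
  rw [hV] at h4
  change w ((c d : K) * (s / t) ^ (-d) / e) ≤ 1 at h4
  rw [map_div₀, div_le_one₀ (zero_lt_iff.2 ((Valuation.ne_zero_iff _).2 he0)), hew] at h4
  have h5 : (c d : K) * t ^ d = (c d : K) * (s / t) ^ (-d) * s ^ d := by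
    rw [div_zpow, zpow_neg, zpow_neg]
    field_simp
  rw [h5, map_mul, map_zpow₀, hws, one_zpow, mul_one]
  exact h4

/-- The charts are graded. -/
theorem tg_CC {L : Type} [AddCommGroup L] {dg : L ≃+ (ι → ℤ)} (hb : GB ρ B Z U)
    (hS : GS ρ B Z U A B') (ht : t ≠ 0) (htr : Transcendental K0 t)
    (hΦ : HF K0.toSubfield t 1 Z) (D : Tp U A B') : TG K0 t ht (CC dg hS.pc D) := by
  classical
  intro f hf
  choose S c hc using fun m => coeff_laurent hb hS ht htr hΦ D hf m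
  refine ⟨∑ m ∈ f.coeff.support, ∑ d ∈ S m, mo (d, m) (c m d), ?_, ?_⟩
  · refine Subalgebra.sum_mem _ fun m _ => Subalgebra.sum_mem _ fun d hd => ?_
    rw [mo_mem_gI, jm_mo]
    exact comp_mem hb hS ht htr hΦ D hf m (S m) (c m) (hc m) d hd
  · change jm K0 t ht L (∑ m ∈ f.coeff.support, ∑ d ∈ S m, mo (d, m) (c m d)) = f
    rw [map_sum]
    conv_rhs => rw [eq_sum_mo f]
    refine Finset.sum_congr rfl fun m _ => ?_
    rw [map_sum, hc m]
    have h1 : ∀ T : Finset ℤ, mo m (∑ d ∈ T, (c m d : K) * t ^ d) =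
        ∑ d ∈ T, mo m ((c m d : K) * t ^ d) := by
      intro T
      induction T using Finset.induction_on with
      | empty => rw [Finset.sum_empty, Finset.sum_empty, mo_zero]
      | insert a T ha ih => rw [Finset.sum_insert ha, Finset.sum_insert ha, mo_add, ih]
    rw [h1]
    exact Finset.sum_congr rfl fun d _ => jm_mo _ _

end Pool.Agent.Helper49.SF
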