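import Pool.Agent.Helper49.SF.Hd3
import Pool.Agent.Helper49.SR.Hd5

/-!
# The atlas of the quotient
-/

set_option autoImplicit false
set_option linter.unusedSectionVars false

namespace Pool.Agent.Helper49.SF

open Finset Pool.Agent.W559.Mg Pool.Agent.Helper46.AQ Pool.Agent.Helper49.PQ Pointwise Pool.Agent.Helper49.PN
  Pool.Agent.Helper49.SQ Pool.Agent.Helper49.SR

variable {k K : Type} [Field k] [Field K] [Algebra k K] [DecidableEq K] {G : Type} [Group G]
  {ρ : G →* (K ≃ₐ[k] K)} {B : Subalgebra k K} {Z U : Finset K}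
  {ι : Type} [Fintype ι] [DecidableEq ι] {A B' : ι → Finset K}
  {L : Type} [AddCommGroup L] {dg : L ≃+ (ι → ℤ)}
  {K0 F : IntermediateField k K} {t : K}

variable (hb : GB ρ B Z U)
  (hS : GS ρ B Z U A B') (h : Scl ρ Z K0 F t)
  {d1 : ℤ} {τ : K} (hτ : Tau ρ dg K0 t hS.pc d1 τ)

lemma uu_add (D : Tp U A B') (m m' : ι → ℤ) : uu D (m + m') = uu D m * uu D m' := by
  unfold uu
  rw [← Finset.prod_mul_distrib]
  exact Finset.prod_congr rfl fun i _ =>
    zpow_add₀ (div_ne_zero (hh_ne D _) (hh_ne D _)) _ _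

lemma mo_zero_CF {D : Tp U A B'} {a : F} :
    mo (0 : ℤ × L) a ∈ CF F hS hτ D ↔ mo (0 : L) (a : K) ∈ CC dg hS.pc D ⊓ Fx ρ L := by
  have h1 : (0 : ℤ × L) = ((0 : ℤ), (0 : L)) := rfl
  rw [h1, mo_mem_CF, zpow_zero, mul_one]

lemma mo_F_Fx (h : Scl ρ Z K0 F t) {m : L} {a : K} (ha : a ∈ F) : mo m a ∈ Fx ρ L :=
  mo_mem_Fx.2 ((h.F a).1 ha).2

include hb h in
/-- The atlas of the quotient. -/
theorem pf_CF [IsDomain (ML K L)] [Finite G] (𝒱 : Set (ValuationSubring F))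
    (hcv : ∀ V ∈ 𝒱, ∃ W : ValuationSubring K,
      (∀ a : F, (a : K) ∈ W ↔ a ∈ V) ∧ Pos B U W.valuation)
    (ht : t ≠ 0) (D0 : Tp U A B') :
    PFR (k := k) (K := F) 𝒱 (EE U A B') (CF F hS hτ)
      (fun D => ⟨HH D / HH D0, ratio_F hS h ht D0 D⟩) where
  H0 := fun D h0 => div_ne_zero (HH_ne D) (HH_ne D0) (congrArg (Subtype.val : F → K) h0)
  gr := fun D => gr_CF hb hS h hτ ht D
  rt := fun D D' => by
    rw [mo_zero_CF]
    change mo (0 : L) ((HH D' / HH D0) / (HH D / HH D0)) ∈ _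
    rw [div_div_div_cancel_right₀ (HH_ne D0)]
    exact ratio_CC hS D D'
  gl := fun D D' f hf => by
    obtain ⟨n, hn⟩ := gl_full hS.pc D D' _ hf.1
    refine ⟨n, ?_⟩
    rw [mem_CF, map_mul, map_pow]
    have h1 : jm F τ hτ.τ0 L (mo 0 ((⟨HH D' / HH D0, ratio_F hS h ht D0 D'⟩ : F) /
        ⟨HH D / HH D0, ratio_F hS h ht D0 D⟩)) = mo 0 (HH D' / HH D) := by
      rw [jm_mo]
      change mo (0 : L) (((HH D' / HH D0) / (HH D / HH D0)) * τ ^ (0 : ℤ)) = _
      rw [div_div_div_cancel_right₀ (HH_ne D0), zpow_zero, mul_one]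
    rw [h1]
    exact ⟨hn, (Fx ρ L).mul_mem ((Fx ρ L).pow_mem (ratio_CC (dg := dg) hS D D').2 _) hf.2⟩
  fr := fun D x => by
    obtain ⟨a, b, ha, hb', haC, hbC, hb0, hx⟩ := exists_dnt_inv (dg := dg) hb hS h ht D x.2
    refine ⟨⟨a, ha⟩, ⟨b, hb'⟩, (mo_zero_CF hS hτ).2 ⟨haC, mo_F_Fx h ha⟩,
      (mo_zero_CF hS hτ).2 ⟨hbC, mo_F_Fx h hb'⟩, fun h0 => hb0 (congrArg (Subtype.val : F → K) h0),
      Subtype.ext hx⟩
  cv := fun V hV => by
    obtain ⟨W, hW, hpos⟩ := hcv V hV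
    obtain ⟨D, hD⟩ := hS.pc.exists_chart W.valuation
    have hvd : Vd B W.valuation D := ⟨hpos, hD⟩
    have hκ := kappa_F hS h hτ ht D
    have hκ0 : (⟨_, hκ⟩ : F) ≠ 0 := fun h0 => div_ne_zero (pow_ne_zero _ hτ.τ0)
      (zpow_ne_zero _ (hh_ne D none)) (congrArg (Subtype.val : F → K) h0)
    have hκ0' : V.valuation (⟨_, hκ⟩ : F) ≠ 0 := (Valuation.ne_zero_iff _).2 hκ0
    have hu0 : ∀ m, (⟨uu D m, uu_F hS h ht D m⟩ : F) ≠ 0 := fun m h0 =>
      uu_ne D m (congrArg (Subtype.val : F → K) h0)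
    have hu0' : ∀ m, V.valuation (⟨uu D m, uu_F hS h ht D m⟩ : F) ≠ 0 := fun m =>
      (Valuation.ne_zero_iff _).2 (hu0 m)
    refine ⟨D, EE U A B', fun e => V.valuation ⟨uu D (dg e.2), uu_F hS h ht D _⟩ *
      V.valuation ⟨_, hκ⟩ ^ (-e.1), EE_pos, fun e => mul_ne_zero (hu0' _) (zpow_ne_zero _ hκ0'),
      fun e e' => ?_, fun f hf e => ?_⟩
    · have h1 : (⟨uu D (dg (e + e').2), uu_F hS h ht D _⟩ : F) =
          ⟨uu D (dg e.2), uu_F hS h ht D _⟩ * ⟨uu D (dg e'.2), uu_F hS h ht D _⟩ := by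
        apply Subtype.ext
        change uu D (dg (e.2 + e'.2)) = uu D (dg e.2) * uu D (dg e'.2)
        rw [map_add, uu_add]
      have h2 : -(e + e').1 = -e.1 + -e'.1 := neg_add _ _
      change V.valuation (⟨uu D (dg (e + e').2), uu_F hS h ht D _⟩ : F) * _ = _
      rw [h1, map_mul, h2, zpow_add₀ hκ0']
      exact mul_mul_mul_comm _ _ _ _
    · obtain ⟨l, m⟩ := e
      have h1 := gr_CF hb hS h hτ ht D f hf (l, m)
      rw [mo_mem_CF] at h1
      have h2 := (mo_mem_CC hS.pc).1 h1.1 _ W.valuation hvd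
      set b : F := f.coeff (l, m) with hbdef
      have hx : (b ^ EE U A B' * (⟨_, hκ⟩ : F) ^ l / ⟨uu D (dg m), uu_F hS h ht D _⟩ : F) ∈ V := by
        rw [← hW, ← W.valuation_le_one_iff]
        have h3 : ((b ^ EE U A B' * (⟨_, hκ⟩ : F) ^ l / ⟨uu D (dg m), uu_F hS h ht D _⟩ : F) : K) =
            ((b : K) ^ EE U A B' * (τ ^ EE U A B' / hh D none ^ d1) ^ l) / uu D (dg m) := by
          have hz : (((⟨_, hκ⟩ : F) ^ l : F) : K) = (τ ^ EE U A B' / hh D none ^ d1) ^ l :=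
            map_zpow₀ (algebraMap F K) (⟨_, hκ⟩ : F) l
          change (((b ^ EE U A B' : F) : K) * (((⟨_, hκ⟩ : F) ^ l : F) : K)) / uu D (dg m) = _
          rw [hz]
          rfl
        rw [h3, map_div₀, map_mul, map_zpow₀, map_div₀, map_pow, map_pow, map_zpow₀, hvd.hn,
          one_zpow, div_one, hvd.uu_eq]
        have h4 : nm A B' W.valuation (dg m) ≠ 0 := nm_ne_zero (hS.pc.al_ne _) _
        rw [div_le_one₀ (zero_lt_iff.2 (pow_ne_zero _ h4))]
        have h5 : W.valuation (b : K) ^ EE U A B' * (W.valuation τ ^ EE U A B') ^ l =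
            W.valuation ((b : K) * τ ^ l) ^ EE U A B' := by
          rw [map_mul, map_zpow₀, mul_pow]
          congr 1
          rw [← zpow_natCast, ← zpow_natCast, ← zpow_mul, ← zpow_mul, mul_comm]
        rw [h5]
        exact pow_le_pow_left' h2 _
      rw [← V.valuation_le_one_iff, map_div₀, map_mul, map_pow, map_zpow₀,
        div_le_one₀ (zero_lt_iff.2 (hu0' _))] at hx
      change V.valuation b ^ EE U A B' ≤ V.valuation ⟨uu D (dg m), uu_F hS h ht D _⟩ *
        V.valuation (⟨_, hκ⟩ : F) ^ (-l)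
      rw [zpow_neg, ← div_eq_mul_inv, le_div_iff₀ (zero_lt_iff.2 (zpow_ne_zero _ hκ0'))]
      exact hx
  E0 := EE_pos
  un := fun D e => by
    obtain ⟨l, m⟩ := e
    obtain ⟨h1, h2⟩ := uu_CC (dg := dg) hS D m
    have hκ := kappa_F hS h hτ ht D
    set κ : F := ⟨_, hκ⟩ with hκdef
    have hκK : (κ : K) = τ ^ EE U A B' / hh D none ^ d1 := rfl
    have hκ0 : κ ≠ 0 := fun h0 => div_ne_zero (pow_ne_zero _ hτ.τ0)
      (zpow_ne_zero _ (hh_ne D none)) (congrArg (Subtype.val : F → K) h0)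
    set u : F := ⟨uu D (dg m), uu_F hS h ht D _⟩ with hudef
    have huK : (u : K) = uu D (dg m) := rfl
    have hu0 : u ≠ 0 := fun h0 => uu_ne D _ (congrArg (Subtype.val : F → K) h0)
    have hz : ((κ ^ (-l) : F) : K) = (κ : K) ^ (-l) := map_zpow₀ (algebraMap F K) κ (-l)
    have hE : EE U A B' • ((l, m) : ℤ × L) = (EE U A B' * l, EE U A B' • m) := by
      ext
      · simp
      · rfl
    have key : (κ : K) ^ (-l) * τ ^ ((EE U A B' : ℤ) * l) = hh D none ^ (d1 * l) := by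
      rw [hκK, div_zpow, ← zpow_natCast, ← zpow_mul, ← zpow_mul, mul_neg, mul_neg, zpow_neg,
        zpow_neg, inv_div_inv, div_mul_cancel₀ _ (zpow_ne_zero _ hτ.τ0)]
    refine ⟨u * κ ^ (-l), mul_ne_zero hu0 (zpow_ne_zero _ hκ0), ?_, ?_⟩
    · rw [hE, mo_mem_CF]
      have h3 : ((u * κ ^ (-l) : F) : K) * τ ^ ((EE U A B' : ℤ) * l) =
          uu D (dg m) * hh D none ^ (d1 * l) := by
        change (u : K) * ((κ ^ (-l) : F) : K) * _ = _
        rw [hz, huK, mul_assoc, key]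
      rw [h3]
      have h4 := (CC dg hS.pc D ⊓ Fx ρ L).mul_mem h1 (none_CC (dg := dg) hS D (d1 * l))
      rwa [mo_mul, add_zero] at h4
    · have hE' : -(EE U A B' • ((l, m) : ℤ × L)) = (-(EE U A B' * l), -(EE U A B' • m)) := by
        rw [hE]
        rfl
      rw [hE', mo_mem_CF]
      have h3 : (((u * κ ^ (-l))⁻¹ : F) : K) * τ ^ (-((EE U A B' : ℤ) * l)) =
          (uu D (dg m))⁻¹ * hh D none ^ (-(d1 * l)) := by
        have h5 : (((u * κ ^ (-l))⁻¹ : F) : K) = ((u : K) * ((κ ^ (-l) : F) : K))⁻¹ := rfl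
        rw [h5, hz, huK, mul_inv, mul_assoc, zpow_neg τ, ← mul_inv, key, zpow_neg]
      rw [h3]
      have h4 := (CC dg hS.pc D ⊓ Fx ρ L).mul_mem h2 (none_CC (dg := dg) hS D (-(d1 * l)))
      rwa [mo_mul, add_zero] at h4
  gen := fun D => by
    set W := AddSubgroup.closure {e : ℤ × L | ∃ a : F, a ≠ 0 ∧ mo e a ∈ CF F hS hτ D} with hW
    -- the second direction
    have h1 : ∀ i, ((0 : ℤ), dg.symm (-Pi.single i 1)) ∈ W := by
      intro i
      refine AddSubgroup.subset_closure ⟨1, one_ne_zero, ?_⟩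
      rw [mo_mem_CF, zpow_zero, mul_one]
      refine ⟨(mo_mem_CC hS.pc).2 ?_, mo_mem_Fx.2 fun γ => map_one _⟩
      intro Γ _ v hv
      rw [AddEquiv.apply_symm_apply, nm_neg, nm_single, zpow_one]
      change v 1 ≤ _
      rw [map_one]
      exact one_le_inv₀ (zero_lt_iff.2 (hS.pc.al_ne v i)) |>.2 (hS.pc.le1 Γ v hv.1 i)
    have h2 : ∀ x : L, ((0 : ℤ), x) ∈ W := by
      intro x
      have h3 : x = ∑ i, (-(dg x i)) • dg.symm (-Pi.single i 1) := by
        apply dg.injective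
        rw [map_sum]
        have h4 : ∀ i, dg ((-(dg x i)) • dg.symm (-Pi.single i 1)) = Pi.single i (dg x i) := by
          intro i
          rw [map_zsmul, AddEquiv.apply_symm_apply]
          funext j
          by_cases hj : j = i
          · subst hj
            simp
          · simp [hj]
        rw [Finset.sum_congr rfl fun i _ => h4 i]
        exact (Finset.univ_sum_single _).symm
      have h5 : ((0 : ℤ), x) = ∑ i, (-(dg x i)) • ((0 : ℤ), dg.symm (-Pi.single i 1)) := by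
        ext
        · rw [Prod.fst_sum]
          simp
        · rw [Prod.snd_sum]
          exact h3
      rw [h5]
      exact AddSubgroup.sum_mem _ fun i _ => AddSubgroup.zsmul_mem _ (h1 i) _
    -- the first direction
    have h3 : gens dg K0 t hS.pc D ⊆
        ((W.map (AddMonoidHom.fst ℤ L)).map (zmultiplesHom ℤ d1) : AddSubgroup ℤ) := by
      rintro d ⟨m, a, ha0, had, ha⟩
      have hd : d ∈ AddSubgroup.zmultiples d1 := by
        rw [← hτ.gen D]
        exact AddSubgroup.subset_closure ⟨m, a, ha0, had, ha⟩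
      obtain ⟨l, hl⟩ := AddSubgroup.mem_zmultiples_iff.1 hd
      have hl' : d = l * d1 := by rw [← hl, smul_eq_mul]
      have hbF : a / τ ^ l ∈ F := by
        rw [h.F]
        constructor
        · have h2 := hom_zpow (K0 := K0.toSubfield) ht hτ.hτ l
          rw [← hl'] at h2
          have h3 := K0.div_mem had h2
          rwa [div_div_div_cancel_right₀ (zpow_ne_zero _ ht)] at h3
        · intro γ
          rw [map_div₀, map_zpow₀, hτ.inv, mo_mem_Fx.1 ha.2]
      refine ⟨l, ⟨(l, m), AddSubgroup.subset_closure ⟨⟨_, hbF⟩, fun h0 => ?_, ?_⟩, rfl⟩, ?_⟩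
      · exact div_ne_zero ha0 (zpow_ne_zero _ hτ.τ0) (congrArg (Subtype.val : F → K) h0)
      · rw [mo_mem_CF]
        change mo m (a / τ ^ l * τ ^ l) ∈ _
        rw [div_mul_cancel₀ _ (zpow_ne_zero _ hτ.τ0)]
        exact ha
      · rw [zmultiplesHom_apply]
        exact hl
    have h4 : d1 ∈ (W.map (AddMonoidHom.fst ℤ L)).map (zmultiplesHom ℤ d1) := by
      have h5 := (AddSubgroup.closure_le _).2 h3
      rw [hτ.gen D] at h5
      exact h5 (AddSubgroup.mem_zmultiples d1)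
    obtain ⟨l, ⟨⟨l', m⟩, hlm, hl'⟩, hl⟩ := h4
    have hl1 : l' = 1 := by
      rw [zmultiplesHom_apply, smul_eq_mul] at hl
      have h5 : l' = l := hl'
      rw [h5]
      exact mul_right_cancel₀ hτ.d0 (by rw [hl, one_mul])
    subst hl1
    rw [eq_top_iff]
    rintro ⟨a, x⟩ -
    have h5 : ((a, x) : ℤ × L) = a • ((1 : ℤ), m) + ((0 : ℤ), x - a • m) := by
      ext
      · simp
      · simp
    rw [h5]
    exact W.add_mem (W.zsmul_mem hlm a) (h2 _)

end Pool.Agent.Helper49.SF
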