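import Pool.Agent.Helper49.SF.Rel1
import Pool.Agent.Helper49.SF.Fin1
import Pool.Agent.Helper45.SE.Tame

/-!
# Groups whose elements of order `p` are linear in etale coordinates (after helper45)
-/

set_option autoImplicit false
set_option linter.unusedSectionVars false

namespace Pool.Agent.Helper49.SF

open MvPolynomial Pool.Agent.W559.Mg Pool.Agent.W559.Et Pool.Agent.Helper49.SQ
  Pool.Agent.Helper49.SE Pool.Agent.Helper45.SE

open Pool.Agent.Helper18.SE IsLocalRing in
/-- The residue field is `k` (after helper18). -/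
theorem resid_ {k L : Type} [Field k] [Field L] [Algebra k L] (B : Subalgebra k L) (q : Ideal B)
    (hq : q.IsPrime) (hb : ∀ b : B, ∃ c : k, b - algebraMap k B c ∈ q) :
    haveI := isLocal B q hq
    ∀ x : locR B q hq, ∃ c : k, x - algebraMap k _ c ∈ maximalIdeal (locR B q hq) := by
  have := isLocal B q hq
  let := algLoc B q hq
  have := hq
  have := isLoc B q hq
  have := tower B q hq
  have hmem : ∀ b : B, b ∈ q → (⟨b, le_locR B q hq b.2⟩ : locR B q hq) ∈ maximalIdeal (locR B q hq) := by
    intro b hb
    exact (IsLocalization.AtPrime.to_map_mem_maximal_iff (locR B q hq) q b).2 hb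
  rintro ⟨x, a, b, hb', hx⟩
  obtain ⟨c, hc⟩ := hb a
  obtain ⟨d, hd⟩ := hb b
  have hd0 : d ≠ 0 := by
    rintro rfl
    rw [map_zero, sub_zero] at hd
    exact hb' hd
  refine ⟨c / d, ?_⟩
  -- x - c/d = (a d - c b) / (b d)
  have h1 : a * algebraMap k B d - algebraMap k B c * b ∈ q := by
    have : a * algebraMap k B d - algebraMap k B c * b =
        (a - algebraMap k B c) * algebraMap k B d - algebraMap k B c * (b - algebraMap k B d) := by ring
    rw [this]
    exact q.sub_mem (q.mul_mem_right _ hc) (q.mul_mem_left _ hd)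
  have h2 := hmem _ h1
  have h3 : (⟨x, a, b, hb', hx⟩ : locR B q hq) - algebraMap k _ (c / d) =
      (⟨((a * algebraMap k B d - algebraMap k B c * b : B) : L), le_locR B q hq (Subtype.property _)⟩ : locR B q hq) *
        (⟨(b : L)⁻¹, inv_mem_locR B q hq hb'⟩ * algebraMap k _ d⁻¹) := by
    apply Subtype.ext
    change x - algebraMap k L (c / d) = ((a : L) * algebraMap k L d - algebraMap k L c * (b : L)) *
      ((b : L)⁻¹ * algebraMap k L d⁻¹)
    have hbn := ne_zero_of_notMem B q hb'
    have hdn : algebraMap k L d ≠ 0 := (map_ne_zero _).2 hd0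
    rw [← hx, map_div₀, map_inv₀]
    field_simp
  rw [h3]
  exact Ideal.mul_mem_right _ _ h2

/-- The element `g` is linear in etale coordinates. -/
def Lin1 {k K : Type} [Field k] [Field K] [Algebra k K] (g : K ≃ₐ[k] K) (O : Subalgebra k K) :
    Prop :=
  ∃ (n : ℕ) (y : Fin n → O),
    ((aeval y : MvPolynomial (Fin n) k →ₐ[k] O).toRingHom).FormallyEtale ∧
    ∀ i, g (y i : K) ∈ Submodule.span k (Set.range fun j => (y j : K))

/-- If the elements of order `p` of the inertia group of a rational point are linear in etale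
coordinates and `p ^ 2` does not divide its order, then the inertia group is linear. -/
theorem lin_rel (p : ℕ) [Fact p.Prime] (k K : Type) [Field k] [CharP k p] [Field K]
    [Algebra k K] (G : Type) [Group G] [Finite G] (ρ : G →* (K ≃ₐ[k] K)) (B : Subalgebra k K)
    (hB : Algebra.Smooth k B) (m : Ideal B) (hm : m.IsMaximal)
    (hrat : ∀ b : B, ∃ c : k, b - algebraMap k B c ∈ m)
    (hp2 : ¬ p ^ 2 ∣ Nat.card (IGrp ρ m hm.isPrime))
    (hlin : ∀ g, InG ρ (locR B m hm.isPrime) g → orderOf g = p →
      Lin1 (ρ g) (locR B m hm.isPrime)) :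
    LinG ρ (locR B m hm.isPrime) := by
  classical
  obtain ⟨H, hHe⟩ : ∃ H : Subgroup G, H = IGrp ρ m hm.isPrime := ⟨_, rfl⟩
  have hH : ∀ g, g ∈ H ↔ InG ρ (locR B m hm.isPrime) g := by
    intro g
    rw [hHe]
    exact Iff.rfl
  rw [← hHe] at hp2
  obtain ⟨O, hO⟩ : ∃ O : Subalgebra k K, O = locR B m hm.isPrime := ⟨_, rfl⟩
  have hBft : Algebra.FiniteType k B := inferInstance
  have hloc : IsLocalRing O := hO ▸ Helper18.SE.isLocal B m hm.isPrime
  have hfs : Algebra.FormallySmooth k O := hO ▸ Helper18.SE.smooth B m hm.isPrime hB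
  have hess : Algebra.EssFiniteType k O := hO ▸ Helper18.SE.ess B m hm.isPrime hBft
  have hnoeth : IsNoetherianRing O := Algebra.EssFiniteType.isNoetherianRing k O
  have hres : ∀ x : O, ∃ c : k, x - algebraMap k O c ∈ IsLocalRing.maximalIdeal O := by
    subst hO
    exact resid_ B m hm.isPrime hrat
  rw [← hO] at hH hlin ⊢
  obtain ⟨ev, hev⟩ := exists_ev k O hres
  have hnu : ∀ z : K, ∀ hz : z ∈ O, (∀ x' ∈ O, z * x' ≠ 1) →
      (⟨z, hz⟩ : O) ∈ IsLocalRing.maximalIdeal O := by
    intro z hz h1
    rw [IsLocalRing.mem_maximalIdeal, mem_nonunits_iff, isUnit_iff_exists_inv]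
    rintro ⟨x', hx'⟩
    exact h1 x' x'.2 (congrArg (fun v : O => (v : K)) hx')
  -- the action
  let r0 : H → (O →ₐ[k] O) := fun h =>
    (((ρ (h : G) : K ≃ₐ[k] K) : K →ₐ[k] K).comp O.val).codRestrict O
      fun x => (((hH h).1 h.2) x x.2).1
  have hr0 : ∀ (h : H) (x : O), ((r0 h x : O) : K) = ρ (h : G) (x : K) := fun _ _ => rfl
  let r : H →* (O →ₐ[k] O) :=
    { toFun := r0
      map_one' := by
        apply AlgHom.ext
        intro x
        apply Subtype.ext
        rw [hr0, OneMemClass.coe_one, map_one]
        rfl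
      map_mul' := fun a b => by
        apply AlgHom.ext
        intro x
        apply Subtype.ext
        rw [hr0, Subgroup.coe_mul, map_mul, AlgHom.mul_apply, hr0, hr0]
        rfl }
  have hr : ∀ (h : H) (x : O), ((r h x : O) : K) = ρ (h : G) (x : K) := fun _ _ => rfl
  have key : ∃ (P : Subgroup H) (C : Submodule k O), (Nat.card (H ⧸ P) : k) ≠ 0 ∧
      IsCompl (MM2 k O) C ∧ ∀ h ∈ P, ∀ x ∈ C, r h x ∈ C := by
    by_cases hpd : p ∣ Nat.card H
    swap
    · obtain ⟨C, hC⟩ := (MM2 k O).exists_isCompl
      refine ⟨⊥, C, ?_, hC, ?_⟩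
      · rw [Ne, CharP.cast_eq_zero_iff k p]
        intro h
        apply hpd
        rw [Subgroup.card_eq_card_quotient_mul_card_subgroup (⊥ : Subgroup H)]
        exact h.mul_right _
      · intro h hh x hx
        rw [Subgroup.mem_bot.1 hh, map_one]
        exact hx
    · -- an element of order `p`
      obtain ⟨g0, hg0⟩ := exists_prime_orderOf_dvd_card' p hpd
      have hcardP : Nat.card (Subgroup.zpowers g0) = p := by
        rw [Nat.card_zpowers, hg0]
      have hidx : (Nat.card (H ⧸ Subgroup.zpowers g0) : k) ≠ 0 := by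
        rw [Ne, CharP.cast_eq_zero_iff k p]
        intro h
        apply hp2
        rw [Subgroup.card_eq_card_quotient_mul_card_subgroup (Subgroup.zpowers g0), hcardP,
          pow_two]
        exact mul_dvd_mul_right h p
      obtain ⟨n, y, hy, hyl⟩ := hlin g0 ((hH _).1 g0.2) (by
        rw [← hg0]
        exact Subgroup.orderOf_coe g0)
      obtain ⟨C, hCe⟩ : ∃ C : Submodule k O, C = Submodule.span k (insert (1 : O)
          (Set.range fun i => y i - algebraMap k O (ev (y i)))) := ⟨_, rfl⟩
      have hC : IsCompl (MM2 k O) C := by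
        rw [hCe]
        exact isCompl_of_etale ev hev y hy
      have hC1 : (1 : O) ∈ C := by
        rw [hCe]
        exact Submodule.subset_span (Set.mem_insert _ _)
      have hCc : ∀ c : k, algebraMap k O c ∈ C := by
        intro c
        rw [Algebra.algebraMap_eq_smul_one]
        exact C.smul_mem _ hC1
      have hCy : ∀ i, y i ∈ C := by
        intro i
        have h1 : y i - algebraMap k O (ev (y i)) ∈ C := by
          rw [hCe]
          exact Submodule.subset_span (Set.mem_insert_of_mem _ ⟨i, rfl⟩)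
        have h2 := C.add_mem h1 (hCc (ev (y i)))
        rwa [sub_add_cancel] at h2
      have hCg : ∀ x ∈ C, r g0 x ∈ C := by
        have h1 : C ≤ C.comap (r g0).toLinearMap := by
          conv_lhs => rw [hCe]
          rw [Submodule.span_le]
          rintro x (rfl | ⟨i, rfl⟩)
          · change r g0 1 ∈ C
            rw [map_one]
            exact hC1
          · change r g0 (y i - algebraMap k O (ev (y i))) ∈ C
            rw [map_sub, AlgHom.commutes]
            refine C.sub_mem ?_ (hCc _)
            obtain ⟨c, hc⟩ := (Submodule.mem_span_range_iff_exists_fun k).1 (hyl i)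
            have h2 : r g0 (y i) = ∑ j, c j • y j := by
              apply Subtype.ext
              rw [hr, ← hc]
              simp only [AddSubmonoidClass.coe_finsetSum, Subalgebra.coe_smul]
            rw [h2]
            exact C.sum_mem fun j _ => C.smul_mem _ (hCy j)
        exact h1
      have hCP : ∀ h ∈ Subgroup.zpowers g0, ∀ x ∈ C, r h x ∈ C := by
        intro h hh
        obtain ⟨l, rfl⟩ : ∃ l : ℕ, g0 ^ l = h :=
          ((isOfFinOrder_of_finite g0).mem_powers_iff_mem_zpowers).2 hh
        induction l with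
        | zero =>
          intro x hx
          rw [pow_zero, map_one]
          exact hx
        | succ l ih =>
          intro x hx
          rw [pow_succ', map_mul, AlgHom.mul_apply]
          exact hCg _ (ih ⟨l, by simp⟩ x hx)
      exact ⟨Subgroup.zpowers g0, C, hidx, hC, hCP⟩
  obtain ⟨P, C, hidx, hC, hCP⟩ := key
  obtain ⟨W, h1, h2, h3, h4⟩ := exists_stable' ev hev (IsNoetherian.noetherian _) H
    P hidx r (by
      intro h x hx
      have h5 : r h x = (r h x - x) + x := by ring
      rw [h5]
      refine Ideal.add_mem _ ?_ hx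
      have h6 := hnu (ρ (h : G) (x : K) - x) (O.sub_mem (((hH h).1 h.2) x x.2).1 x.2)
        (((hH h).1 h.2) x x.2).2
      exact h6) C hC hCP
  refine ⟨Module.finrank k W, fun i => (Module.finBasis k W i : O), ?_, ?_⟩
  · have hfin : Module.Finite O (Ω[O⁄k]) := inferInstance
    exact etale_of_basis ev hev W h1 h2 (Module.finBasis k W)
  · intro g hg i
    have h5 := h4 ⟨g, (hH g).2 hg⟩ _ (Module.finBasis k W i).2
    have h6 := (Module.finBasis k W).sum_repr ⟨_, h5⟩
    have h7 := congrArg (fun v : W => ((v : O) : K)) h6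
    simp only [Submodule.coe_smul, AddSubmonoidClass.coe_finsetSum,
      Subalgebra.coe_smul] at h7
    have h8 : ρ g ((Module.finBasis k W i : O) : K) =
        ((r ⟨g, (hH g).2 hg⟩ (Module.finBasis k W i : O) : O) : K) := rfl
    rw [h8, ← h7]
    exact Submodule.sum_mem _ fun j _ => Submodule.smul_mem _ _ (Submodule.subset_span ⟨j, rfl⟩)

end Pool.Agent.Helper49.SF
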