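import Pool.Agent.Helper49.SF.Fin1
import Pool.Agent.Helper49.SE.Fin2
import Pool.Agent.Helper49.SE.Chg
import Pool.Agent.Helper49.SE.Closed
import Pool.Agent.Helper49.SE.Main
import Pool.Agent.Helper33.SE.Spread2
import Pool.Agent.Helper33.SE.Glob2
import Pool.Agent.Helper2.SE.Res
import Pool.Agent.Helper49.SF.Rel2

/-!
# Quotients of quasi-projective varieties: main theorems
-/

set_option autoImplicit false
set_option linter.unusedSectionVars false

namespace Pool.Agent.Helper49.SF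

open Finset Pool.Agent.W559.Mg Pool.Agent.W559.Et Pool.Agent.Helper49.SQ
  Pool.Agent.Helper59.SE Pool.Agent.Helper49.SE
open AlgebraicGeometry CategoryTheory Pool.Agent.T6.H74.GC

theorem coneG2 : ConeG2Stm :=
  Pool.Agent.Helper38.SE.C2.cone2 Pool.Agent.Helper59.SE.foCh Pool.Agent.Helper33.SE.inCh
    Pool.Agent.Helper59.SE.etLoc

theorem finiteG2 : Finite2Stm :=
  Pool.Agent.Helper49.SE.finite2 (Pool.Agent.Helper49.SE.local2 Pool.Agent.Helper59.SE.foMul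
    Pool.Agent.Helper59.SE.foCh Pool.Agent.Helper59.SE.foAct Pool.Agent.Helper33.SE.spreadG2
    Pool.Agent.Helper33.SE.inNear Pool.Agent.Helper59.SE.etLoc) Pool.Agent.Helper59.SE.foMul

theorem chgG : ChgStm := chg_ Pool.Agent.Helper59.SE.foCh

theorem glob2G : Glob2Stm := Pool.Agent.Helper33.SE.glob2 Pool.Agent.Helper2.SE.res

section

variable {k K : Type} [Field k] [Field K] [Algebra k K] {N : ℕ} {G : Type} [Group G] [Finite G]

/-- The group is mild at the closed points. -/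
def MildG (p : ℕ) (ρ : G →* (K ≃ₐ[k] K)) (B : Subalgebra k K) : Prop :=
  ∀ (m : Ideal B) (hm : m.IsMaximal),
    ¬ p ^ 2 ∣ Nat.card (IGrp ρ m hm.isPrime) ∧
    (∀ g, InG ρ (locR B m hm.isPrime) g → orderOf g = p →
      Lin1 (ρ g) (locR B m hm.isPrime)) ∧
    ((∃ b : B, ∀ c : k, b - algebraMap k B c ∉ m) → LinG ρ (locR B m hm.isPrime))

/-- The linearity at the closed points. -/
lemma lin_of_mild {p : ℕ} [Fact p.Prime] [CharP k p] {ρ : G →* (K ≃ₐ[k] K)} {B : Subalgebra k K}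
    (hsm : Algebra.Smooth k B) (hB : MildG p ρ B) (m : Ideal B) (hm : m.IsMaximal) :
    LinG ρ (locR B m hm.isPrime) := by
  obtain ⟨h1, h2, h3⟩ := hB m hm
  by_cases h : ∃ b : B, ∀ c : k, b - algebraMap k B c ∉ m
  · exact h3 h
  · push Not at h
    exact lin_rel p k K G ρ B hsm m hm h h1 h2

/-- All prime ideals. -/
lemma all_of_mild {p : ℕ} [Fact p.Prime] [CharP k p] {ρ : G →* (K ≃ₐ[k] K)} {B : Subalgebra k K}
    (hsm : Algebra.Smooth k B) (hB : MildG p ρ B)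
    (hcl : ∀ (q m : Ideal B) (hq : q.IsPrime) (hm : m.IsPrime), q ≤ m →
      (∀ g, InG ρ (locR B q hq) g → InG ρ (locR B m hm) g) ∧
      (LinG ρ (locR B m hm) → LinG ρ (locR B q hq))) (Q : Ideal B) (hQ : Q.IsPrime) :
    LinG ρ (locR B Q hQ) ∧ ¬ p ^ 2 ∣ Nat.card (IGrp ρ Q hQ) := by
  obtain ⟨m, hm, hQm⟩ := Q.exists_le_maximal hQ.ne_top
  obtain ⟨h1, h2⟩ := hcl Q m hQ hm.isPrime hQm
  refine ⟨h2 (lin_of_mild hsm hB m hm), fun h => (hB m hm).1 (h.trans ?_)⟩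
  exact Subgroup.card_dvd_of_le fun g hg => h1 g hg

/-- Resolutions of quotients of quasi-projective varieties. -/
theorem resolution_mild (p : ℕ) [Fact p.Prime] [PerfectField k] [CharP k p] (z : Fin (N + 1) → K)
    (hz : ∀ i, z i ≠ 0) (ρ : G →* (K ≃ₐ[k] K))
    (hlin : ∀ g i, ρ g (z i) ∈ Submodule.span k (Set.range z)) (hinj : ∀ g, ρ g = 1 → g = 1)
    (htop : IntermediateField.adjoin k {x | ∃ i j, x = z i / z j} = ⊤)
    (F : IntermediateField k K) (hF : ∀ a, a ∈ F ↔ ∀ g, ρ g a = a)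
    (X : Scheme.{0}) (f : X ⟶ Spec (CommRingCat.of k)) [QuasiCompact f] [IsSeparated f]
    [AlgebraicGeometry.IsIntegral X] (φ : X.functionField ≃+* F) (hφ : IsLinear f φ)
    (hX : ∀ x : X, ∃ U : X.Opens, IsAffineOpen U ∧ x ∈ U ∧ ∃ (d : ℕ) (h : K)
      (hh : h ∈ Fo (⊥ : Subalgebra k K) z d), 0 < d ∧ h ≠ 0 ∧ (∀ g, ρ g h = h) ∧
      functionsOn φ U = ((QK ⊥ z hh).comap F.val : Subalgebra k F) ∧
      Algebra.Smooth k (QK ⊥ z hh) ∧ MildG p ρ (QK ⊥ z hh)) :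
    ∃ (Y : Scheme.{0}) (π : Y ⟶ X), AlgebraicGeometry.IsIntegral Y ∧
      AlgebraicGeometry.IsProper π ∧ AlgebraicGeometry.Smooth (π ≫ f) ∧
      ∃ U : X.Opens, Dense (U : Set X) ∧ IsIso (π ∣_ U) := by
  have act : Act ρ (⊥ : Subalgebra k K) z := by
    refine ⟨hz, ?_, hlin⟩
    rintro g a ha
    obtain ⟨c, rfl⟩ := Algebra.mem_bot.1 ha
    rw [AlgEquiv.commutes]
    exact Subalgebra.algebraMap_mem _ c
  refine resolution coneG2 finiteG2 chgG glob2G p ⊥ Subalgebra.fg_bot z ρ act hinj ?_ F hF X f φ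
    hφ fun x => ?_
  · rw [eq_top_iff, ← htop]
    exact IntermediateField.adjoin.mono _ _ _ Set.subset_union_right
  · obtain ⟨U, hU, hxU, d, h, hh, hd, h0, hi, hf, hsm, hm⟩ := hX x
    refine ⟨U, hU, hxU, d, h, hh, hd, h0, hi, hf, all_of_mild hsm hm ?_⟩
    have hst : ∀ g, ∀ b ∈ QK (⊥ : Subalgebra k K) z hh, ρ g b ∈ QK (⊥ : Subalgebra k K) z hh := by
      rintro g b ⟨n, hn⟩
      refine ⟨n, ?_⟩
      have h1 := Pool.Agent.Helper59.SE.foAct k K N ⊥ z G ρ act g _ _ hn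
      rwa [map_mul, map_pow, hi g] at h1
    intro q m hq hm' hqm
    have h1 : ∀ g, InG ρ (locR _ q hq) g → InG ρ (locR _ m hm') g := by
      intro g hg
      rw [inG_iff hst] at hg ⊢
      exact fun b hb => hqm (hg b hb)
    exact ⟨h1, lin_of_le hq hm' hqm h1⟩

/-- Smooth projective models of quotients of smooth projective varieties. -/
theorem models_mild (p : ℕ) [Fact p.Prime] [PerfectField k] [CharP k p] (z : Fin (N + 1) → K)
    (hz : ∀ i, z i ≠ 0) (ρ : G →* (K ≃ₐ[k] K))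
    (hlin : ∀ g i, ρ g (z i) ∈ Submodule.span k (Set.range z)) (hinj : ∀ g, ρ g = 1 → g = 1)
    (htop : IntermediateField.adjoin k {x | ∃ i j, x = z i / z j} = ⊤)
    (hsm : ∀ j, Algebra.Smooth k (Ch (⊥ : Subalgebra k K) z j))
    (hmild : ∀ j, MildG p ρ (Ch (⊥ : Subalgebra k K) z j))
    (F : IntermediateField k K) (hF : ∀ a, a ∈ F ↔ ∀ g, ρ g a = a) :
    Pool.Agent.W559.Wr.SPMR k F ((⊥ : Subalgebra k K).comap F.val) := by
  have act : Act ρ (⊥ : Subalgebra k K) z := by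
    refine ⟨hz, ?_, hlin⟩
    rintro g a ha
    obtain ⟨c, rfl⟩ := Algebra.mem_bot.1 ha
    rw [AlgEquiv.commutes]
    exact Subalgebra.algebraMap_mem _ c
  have hall : ∀ (j : Fin (N + 1)) (q : Ideal (Ch (⊥ : Subalgebra k K) z j)) (hq : q.IsPrime),
      LinG ρ (locR _ q hq) ∧ ¬ p ^ 2 ∣ Nat.card (IGrp ρ q hq) := fun j =>
    all_of_mild (hsm j) (hmild j) fun q m hq hm hqm =>
      closed_ch Pool.Agent.Helper33.SE.inCh act hq hm hqm
  refine (models' p ⊥ Subalgebra.fg_bot z ρ act hinj hsm ?_ (fun j q hq => (hall j q hq).1) ?_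
    F hF).1
  · rw [eq_top_iff, ← htop]
    exact IntermediateField.adjoin.mono _ _ _ Set.subset_union_right
  · intro j q hq H hH hdv
    exact (hall j q hq).2 (hdv.trans (Subgroup.card_dvd_of_le fun g hg => hH g hg))

end

end Pool.Agent.Helper49.SF
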