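import Pool.Agent.Helper49.SF.As7
import Pool.Agent.Helper49.SF.Hd4
import Pool.Agent.Helper49.SE.Mod

/-!
# Models which dominate the quotient, version with two families
-/

set_option autoImplicit false
set_option linter.unusedSectionVars false

namespace Pool.Agent.Helper49.SF

open Finset Pool.Agent.W559.Mg Pool.Agent.Helper46.AQ Pool.Agent.Helper49.PQ Pointwise
  Pool.Agent.Helper49.PN Pool.Agent.Helper49.SQ Pool.Agent.W559.Wr Pool.Agent.W559.Et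
  Pool.Agent.Helper49.SR Pool.Agent.Helper49.SE

/-- The chart of a model. -/
noncomputable abbrev cv {k K : Type} [Field k] [Field K] [Algebra k K]
    {I : Type} (w : I → K) (t : I) : Subalgebra k K :=
  Algebra.adjoin k (Set.range fun i => w i / w t)

/-- Homogeneous coordinates of a smooth scheme on which the valuation rings in `𝒱` have a centre,
with charts which contain the sets `W a`. -/
def PMV (k : Type) {K : Type} [Field k] [Field K] [Algebra k K] (𝒱 : Set (ValuationSubring K))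
    {𝒜 : Type} (W : 𝒜 → Set K) : Prop :=
  ∃ (I : Type) (_ : Finite I) (w : I → K) (J : Set I), (∀ i, w i ≠ 0) ∧
    (∀ t ∈ J, Algebra.Smooth k (cv (k := k) w t)) ∧
    (∀ V ∈ 𝒱, ∃ t ∈ J, ∀ i, w i / w t ∈ V) ∧
    ∀ t ∈ J, ∃ a, ∀ x ∈ W a, x ∈ cv (k := k) w t

/-- An atlas without gradings gives a model. -/
theorem pmv_of_MB {k K : Type} [Field k] [Field K] [Algebra k K] {𝒜 : Type}
    {W : 𝒜 → Set K} {𝒱 : Set (ValuationSubring K)} {T : Type} [Finite T] {E : ℕ}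
    {C : T → Subalgebra k (ML K Unit)} {H : T → K}
    (h : MB 𝒱 (⊤ : IntermediateField k K).toSubfield W E C H) : PMV k 𝒱 W := by
  classical
  obtain ⟨G, M, hG, hz1, hz2⟩ := Pool.Agent.W440.ET.core h
  have hGm : ∀ t, ∀ x ∈ G t, mo 0 x ∈ C t := by
    intro t x hx
    have : x ∈ d0 (C t) := by rw [← hG t]; exact Algebra.subset_adjoin hx
    exact this
  let z : T ⊕ (Σ t, {x // x ∈ G t}) → K := Sum.elim (fun t => H t ^ M) (fun p => H p.1 ^ M * p.2.1)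
  have hz : ∀ t i, mo 0 (z i / z (Sum.inl t)) ∈ C t := by
    intro t i
    rcases i with t' | p
    · exact hz1 t t'
    · exact hz2 p.1 p.2.1 p.2.2 t
  have hz0 : ∀ t, z (Sum.inl t) ≠ 0 := fun t => pow_ne_zero M (h.pb.H0 t)
  have hcv : ∀ V ∈ 𝒱, ∃ t, ∀ i, z i / z (Sum.inl t) ∈ V := by
    intro V hV
    obtain ⟨t, E', ψ, ht⟩ := h.pb.cv V hV
    refine ⟨t, fun i => ?_⟩
    have h3 := ht.mo (hz t i)
    rw [psi_zero ht.2.1 ht.2.2.1] at h3
    rw [← V.valuation_le_one_iff]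
    exact (pow_le_one_iff_of_nonneg zero_le ht.1.ne').1 h3
  have hch : ∀ t, Algebra.adjoin k (Set.range fun i => z i / z (Sum.inl t)) = d0 (C t) := by
    intro t
    apply le_antisymm
    · rw [Algebra.adjoin_le_iff]
      rintro _ ⟨i, rfl⟩
      exact hz t i
    · rw [← hG t, Algebra.adjoin_le_iff]
      intro x hx
      apply Algebra.subset_adjoin
      refine ⟨Sum.inr ⟨t, x, hx⟩, ?_⟩
      change H t ^ M * x / H t ^ M = x
      have := pow_ne_zero M (h.pb.H0 t)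
      field_simp
  have hcw : ∀ t, cv (k := k) (fun i : {i // z i ≠ 0} => z i) ⟨Sum.inl t, hz0 t⟩ = d0 (C t) := by
    intro t
    rw [← hch t]
    unfold cv
    apply le_antisymm
    · refine Algebra.adjoin_mono ?_
      rintro _ ⟨n, rfl⟩
      exact ⟨n, rfl⟩
    · refine Algebra.adjoin_le ?_
      rintro _ ⟨i, rfl⟩
      by_cases hi : z i = 0
      · simp only [hi, zero_div]
        exact Subalgebra.zero_mem _
      · exact Algebra.subset_adjoin ⟨⟨i, hi⟩, rfl⟩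
  refine ⟨{i // z i ≠ 0}, inferInstance, fun i => z i, {i : {i // z i ≠ 0} | ∃ t, i.1 = Sum.inl t},
    fun i => i.2, ?_, ?_, ?_⟩
  · rintro ⟨_, hi⟩ ⟨t, rfl⟩
    rw [hcw t]
    exact smooth_d0 (h.sm t)
  · intro V hV
    obtain ⟨t, ht⟩ := hcv V hV
    exact ⟨⟨Sum.inl t, hz0 t⟩, ⟨t, rfl⟩, fun i => ht i⟩
  · rintro ⟨_, hi⟩ ⟨t, rfl⟩
    obtain ⟨a, ha⟩ := h.pb.aa t
    refine ⟨a, fun x hx => ?_⟩
    rw [hcw t]
    exact (ha x hx).1

/-- A smooth atlas gives a model. -/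
theorem pmv_of_PFR {k K : Type} [Field k] [Field K] [Algebra k K] {G : Type} [AddCommGroup G]
    (hG : NRR G) {𝒱 : Set (ValuationSubring K)} {E : ℕ} {T : Type} [Finite T]
    {C : T → Subalgebra k (ML K G)} {H : T → K} (h : PFR 𝒱 E C H)
    (hsm : ∀ t, Algebra.Smooth k (C t)) :
    PMV k 𝒱 (fun t : T => {x : K | mo 0 x ∈ C t}) := by
  obtain ⟨T', hT', E', C', H', h'⟩ := hG.2 k K _ _ _ _ T E C H (h.mb hsm)
  exact pmv_of_MB h'

section gs

variable {k K : Type} [Field k] [Field K] [Algebra k K] [DecidableEq K] {G : Type} [Group G]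
  {ρ : G →* (K ≃ₐ[k] K)} {B : Subalgebra k K} {Z U : Finset K}
  {ι : Type} [Fintype ι] [DecidableEq ι] {A B' : ι → Finset K}
  {K0 F : IntermediateField k K} {t : K}

/-- Dominating models from smooth charts. -/
theorem pmv_of_GS [Finite G] (hb : GB ρ B Z U) (hS : GS ρ B Z U A B')
    (h : Scl ρ Z K0 F t) (ht : t ≠ 0)
    (hsm : ∀ (L : Type) [AddCommGroup L] [IsDomain (ML K L)] (dg : L ≃+ (ι → ℤ))
      (D : Tp U A B'), Algebra.Smooth k ↥(CC dg hS.pc D ⊓ Fx ρ L))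
    (𝒱 : Set (ValuationSubring F))
    (hcv : ∀ V ∈ 𝒱, ∃ W : ValuationSubring K,
      (∀ a : F, (a : K) ∈ W ↔ a ∈ V) ∧ Pos B U W.valuation) :
    PMV k 𝒱 (fun p : {p : ℕ × K // IH ρ B K0 t p.1 p.2} => We B U F p.1.2) := by
  obtain ⟨L, _, dg, hNR⟩ := exists_nrr ι
  have hTU := hNR.1
  have : IsDomain (ML K L) := NoZeroDivisors.to_isDomain _
  obtain ⟨d1, τ, h1, h2, h3, h4, h5⟩ := exists_tau (dg := dg) hS h ht
  have hτ : Tau ρ dg K0 t hS.pc d1 τ := ⟨h1, h2, h3, h4, h5⟩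
  obtain ⟨D0, -⟩ := hS.pc.exists_chart (1 : Valuation K (WithZero (Multiplicative ℤ)))
  have hpf := pf_CF (dg := dg) hb hS h hτ 𝒱 hcv ht D0
  obtain ⟨I, hI, w, J, hw, hws, hwV, hwW⟩ := pmv_of_PFR (nrr_prod hNR) hpf
    (fun D => smooth_CF hb hS h hτ ht D (hsm L dg D))
  refine ⟨I, hI, w, J, hw, hws, hwV, fun t' ht' => ?_⟩
  obtain ⟨D, hD⟩ := hwW t' ht'
  obtain ⟨δ, hδ1, -, hδ⟩ := exists_deg hS ht h.hΦ
  refine ⟨⟨(EE U A B', hh D none), ⟨EE_pos, hh_ne D _, hS.pc.hh_mem D _, hS.pc.hh_inv D _, ?_⟩⟩,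
    fun x hx => hD x ?_⟩
  · have h6 := hδ D none
    rw [hδ1, zpow_natCast] at h6
    exact h6
  · change mo 0 x ∈ CF F hS hτ D
    rw [mo_zero_CF]
    refine ⟨(mo_mem_CC hS.pc).2 ?_, mo_F_Fx h x.2⟩
    intro Γ _ v hv
    rw [map_zero, nm_zero]
    exact hx Γ v hv.1 hv.hn

end gs

/-- Dominating models in terms of the basic data. -/
theorem pmv_of_SB {k K : Type} [Field k] [Field K] [Algebra k K] [DecidableEq K] {G : Type}
    [Group G] [Fintype G] [DecidableEq G] {ρ : G →* (K ≃ₐ[k] K)} {B : Subalgebra k K}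
    {Z U : Finset K} [PerfectField k] (hb : SR.SB ρ B Z) (hfU : Fam ρ B U) (huz : U ⊆ Z)
    (hLL : LLU ρ B Z U) {p : ℕ} [Fact p.Prime]
    [CharP k p] (hG : InP ρ B U p) {K0 F : IntermediateField k K} {t : K}
    (h : Scl ρ Z K0 F t) (ht : t ≠ 0) (𝒱 : Set (ValuationSubring F))
    (hcv : ∀ V ∈ 𝒱, ∃ W : ValuationSubring K,
      (∀ a : F, (a : K) ∈ W ↔ a ∈ V) ∧ Pos B U W.valuation) :
    PMV k 𝒱 (fun p : {p : ℕ × K // IH ρ B K0 t p.1 p.2} => We B U F p.1.2) := by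
  obtain ⟨ι, _, _, A, B', Ex, N, hS, hcmp⟩ := exists_LS (lfU (ρ := ρ) hb hfU p huz) (hm_Fp hb p)
    (rB G p)
  exact pmv_of_GS (Z := Z) ⟨hb.fam, hfU, huz, hb.gen, hb.fr⟩ ⟨hS.pc, huz, hS.hm⟩ h ht
    (fun L _ _ dg D => smooth_inv' (dg := dg) hb hfU huz hLL hS hcmp D hG) 𝒱 hcv

end Pool.Agent.Helper49.SF
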