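import Pool.Agent.Helper45.SE.T3
import Mathlib.RingTheory.Etale.Kaehler

/-!
# The relative theorem of Maschke (after helper45)
-/

set_option autoImplicit false
set_option linter.unusedSectionVars false

namespace Pool.Agent.Helper49.SF

open MvPolynomial TensorProduct Pool.Agent.Helper45.SE

section

variable {k O : Type} [Field k] [CommRing O] [Algebra k O] [IsLocalRing O]

/-- A stable complement of the square of the maximal ideal, if there is one which is stable under
a subgroup of index not zero in `k`. -/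
theorem exists_stable' (ev : O →ₐ[k] k) (hev : ∀ x, ev x = 0 ↔ x ∈ IsLocalRing.maximalIdeal O)
    (hfg : (IsLocalRing.maximalIdeal O).FG) (H : Type) [Group H] [Finite H] (P : Subgroup H)
    (hc : (Nat.card (H ⧸ P) : k) ≠ 0) (r : H →* (O →ₐ[k] O))
    (hr : ∀ h x, x ∈ IsLocalRing.maximalIdeal O → r h x ∈ IsLocalRing.maximalIdeal O)
    (C : Submodule k O) (hC : IsCompl (MM2 k O) C) (hCP : ∀ h ∈ P, ∀ x ∈ C, r h x ∈ C) :
    ∃ W : Submodule k O, W ⊔ MM2 k O = MM k O ∧ Disjoint W (MM2 k O) ∧ Module.Finite k W ∧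
      ∀ h, ∀ x ∈ W, r h x ∈ W := by
  classical
  have _ := Fintype.ofFinite H
  have _ := Fintype.ofFinite (H ⧸ P)
  have hr2 : ∀ h, ∀ x ∈ MM2 k O, r h x ∈ MM2 k O := by
    intro h x hx
    have h1 : IsLocalRing.maximalIdeal O ≤ (IsLocalRing.maximalIdeal O).comap (r h) :=
      fun x hx => hr h x hx
    have h2 : IsLocalRing.maximalIdeal O ^ 2 ≤ (IsLocalRing.maximalIdeal O ^ 2).comap (r h) :=
      (Ideal.pow_right_mono h1 2).trans (Ideal.le_comap_pow _ _)
    exact h2 hx
  set π : O →ₗ[k] O := C.projection (MM2 k O) hC.symm with hπ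
  have hπ1 : ∀ x ∈ MM2 k O, π x = 0 := by
    intro x hx
    rw [hπ, Submodule.projection_apply, (Submodule.projectionOnto_apply_eq_zero_iff hC.symm).2 hx]
    rfl
  have hπ2 : ∀ x, π x - x ∈ MM2 k O := by
    intro x
    rw [← Submodule.projectionOnto_apply_eq_zero_iff hC.symm, map_sub, sub_eq_zero]
    exact Submodule.projectionOnto_apply_left hC.symm _
  have hπ3 : ∀ x, π x ∈ C := fun x => by
    rw [hπ, Submodule.projection_apply]
    exact Subtype.prop _
  have hπ4 : ∀ x ∈ C, π x = x := by
    intro x hx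
    have h1 := C.sub_mem (hπ3 x) hx
    have h2 := (Submodule.disjoint_def.1 hC.disjoint) _ (hπ2 x) h1
    exact sub_eq_zero.1 h2
  have hπ5 : ∀ h ∈ P, ∀ x, r h (π x) = π (r h x) := by
    intro h hh x
    have h1 : r h x = r h (π x) - r h (π x - x) := by
      rw [← map_sub]
      congr 1
      ring
    rw [h1, map_sub, hπ1 _ (hr2 h _ (hπ2 x)), sub_zero, hπ4 _ (hCP h hh _ (hπ3 x))]
  have hinv : ∀ h x, r h (r h⁻¹ x) = x := by
    intro h x
    rw [← AlgHom.mul_apply, ← map_mul, mul_inv_cancel, map_one]
    rfl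
  have hinv' : ∀ h x, r h⁻¹ (r h x) = x := by
    intro h x
    have := hinv h⁻¹ x
    rwa [inv_inv] at this
  let f : H → (O →ₗ[k] O) := fun h => (r h).toLinearMap ∘ₗ π ∘ₗ (r h⁻¹).toLinearMap
  have hf : ∀ h x, f h x = r h (π (r h⁻¹ x)) := fun _ _ => rfl
  have hfP : ∀ h, ∀ a ∈ P, ∀ x, f (h * a) x = f h x := by
    intro h a ha x
    rw [hf, hf, map_mul, AlgHom.mul_apply, hπ5 a ha, mul_inv_rev, map_mul, AlgHom.mul_apply,
      hinv a]
  have hfout : ∀ h x, f (QuotientGroup.mk h : H ⧸ P).out x = f h x := by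
    intro h x
    obtain ⟨a, ha⟩ := QuotientGroup.mk_out_eq_mul P h
    rw [ha, hfP h a a.2]
  set s : O →ₗ[k] O := (Nat.card (H ⧸ P) : k)⁻¹ • ∑ q : H ⧸ P, f q.out with hs
  have hsa : ∀ x, s x = (Nat.card (H ⧸ P) : k)⁻¹ • ∑ q : H ⧸ P, f q.out x := by
    intro x
    rw [hs, LinearMap.smul_apply, LinearMap.sum_apply]
  have ha : ∀ x, s x - x ∈ MM2 k O := by
    intro x
    have h1 : s x - x = (Nat.card (H ⧸ P) : k)⁻¹ •
        ∑ q : H ⧸ P, (r q.out (π (r q.out⁻¹ x) - r q.out⁻¹ x)) := by
      rw [hsa]
      simp only [map_sub, hinv, Finset.sum_sub_distrib, Finset.sum_const, Finset.card_univ,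
        smul_sub, hf]
      congr 1
      rw [← Nat.card_eq_fintype_card, ← Nat.cast_smul_eq_nsmul k, smul_smul,
        inv_mul_cancel₀ hc, one_smul]
    rw [h1]
    exact Submodule.smul_mem _ _ (Submodule.sum_mem _ fun h _ => hr2 _ _ (hπ2 _))
  have hb : ∀ x ∈ MM2 k O, s x = 0 := by
    intro x hx
    rw [hsa]
    simp only [hf, hπ1 _ (hr2 _ x hx), map_zero, Finset.sum_const_zero, smul_zero]
  have hcc : ∀ g x, r g (s x) = s (r g x) := by
    intro g x
    rw [hsa, hsa, map_smul, map_sum]
    congr 1
    refine Fintype.sum_equiv (MulAction.toPerm g) _ _ fun q => ?_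
    rw [MulAction.toPerm_apply]
    obtain ⟨h, rfl⟩ := QuotientGroup.mk_surjective q
    have h2 : g • (QuotientGroup.mk h : H ⧸ P) = QuotientGroup.mk (g * h) := rfl
    rw [h2, hfout, hfout, hf, hf, map_mul, AlgHom.mul_apply, mul_inv_rev, map_mul,
      AlgHom.mul_apply, hinv']
  refine ⟨(MM k O).map s, ?_, ?_, ?_, ?_⟩
  · apply le_antisymm
    · refine sup_le ?_ MM2_le
      rintro _ ⟨x, hx, rfl⟩
      have h1 := (MM k O).add_mem (MM2_le (ha x)) hx
      rwa [sub_add_cancel] at h1
    · intro x hx
      have h1 := (MM2 k O).neg_mem (ha x)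
      rw [neg_sub] at h1
      have h2 := Submodule.add_mem_sup (Submodule.mem_map_of_mem (f := s) hx) h1
      rwa [add_sub_cancel] at h2
  · rw [Submodule.disjoint_def]
    rintro _ ⟨x, hx, rfl⟩ h1
    apply hb
    have h2 := (MM2 k O).sub_mem h1 (ha x)
    rwa [sub_sub_cancel] at h2
  · obtain ⟨t, ht⟩ := hfg
    have h1 : MM k O ≤ Submodule.span k (t : Set O) ⊔ MM2 k O := by
      intro x hx
      rw [mem_MM, ← ht] at hx
      have h2 : x ∈ MM k O ∧ x ∈ Submodule.span k (t : Set O) ⊔ MM2 k O := by
        refine Submodule.span_induction ?_ ?_ ?_ ?_ hx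
        · intro x hx
          refine ⟨?_, Submodule.mem_sup_left (Submodule.subset_span hx)⟩
          rw [mem_MM, ← ht]
          exact Submodule.subset_span hx
        · exact ⟨Submodule.zero_mem _, Submodule.zero_mem _⟩
        · intro x y _ _ h1 h2
          exact ⟨Submodule.add_mem _ h1.1 h2.1, Submodule.add_mem _ h1.2 h2.2⟩
        · intro a x _ h1
          refine ⟨Ideal.mul_mem_left _ _ h1.1, ?_⟩
          have h3 : a • x = ev a • x + (a - algebraMap k O (ev a)) * x := by
            rw [smul_eq_mul, Algebra.smul_def]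
            ring
          rw [h3]
          refine Submodule.add_mem _ (Submodule.smul_mem _ _ h1.2) (Submodule.mem_sup_right ?_)
          rw [mem_MM2, pow_two]
          refine Ideal.mul_mem_mul ?_ h1.1
          rw [← hev, map_sub, AlgHom.commutes]
          simp
      exact h2.2
    have h2 : (MM k O).map s ≤ Submodule.span k (s '' (t : Set O)) := by
      refine (Submodule.map_mono h1).trans ?_
      rw [Submodule.map_sup, Submodule.map_span]
      refine sup_le le_rfl ?_
      rintro _ ⟨x, hx, rfl⟩
      rw [hb x hx]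
      exact Submodule.zero_mem _
    have h3 : FiniteDimensional k (Submodule.span k (s '' (t : Set O))) :=
      FiniteDimensional.span_of_finite k ((Finset.finite_toSet t).image s)
    exact Submodule.finiteDimensional_of_le h2
  · rintro h _ ⟨x, hx, rfl⟩
    rw [hcc]
    exact Submodule.mem_map_of_mem (hr h x hx)

/-- Etale coordinates define a complement of the square of the maximal ideal. -/
theorem isCompl_of_etale (ev : O →ₐ[k] k)
    (hev : ∀ x, ev x = 0 ↔ x ∈ IsLocalRing.maximalIdeal O) {n : ℕ} (y : Fin n → O)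
    (hy : ((aeval y : MvPolynomial (Fin n) k →ₐ[k] O).toRingHom).FormallyEtale) :
    IsCompl (MM2 k O) (Submodule.span k (insert (1 : O)
      (Set.range fun i => y i - algebraMap k O (ev (y i))))) := by
  classical
  let _ : Algebra (MvPolynomial (Fin n) k) O :=
    (aeval y : MvPolynomial (Fin n) k →ₐ[k] O).toRingHom.toAlgebra
  have hst : IsScalarTower k (MvPolynomial (Fin n) k) O := by
    refine IsScalarTower.of_algebraMap_eq' ?_
    exact ((aeval y : MvPolynomial (Fin n) k →ₐ[k] O).comp_algebraMap).symm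
  have hfe : Algebra.FormallyEtale (MvPolynomial (Fin n) k) O := hy
  -- the differentials of the coordinates are a basis
  let B0 : Module.Basis (Fin n) O (O ⊗[MvPolynomial (Fin n) k] (Ω[MvPolynomial (Fin n) k⁄k])) :=
    (KaehlerDifferential.mvPolynomialBasis k (Fin n)).baseChange O
  let b : Module.Basis (Fin n) O (Ω[O⁄k]) :=
    B0.map (KaehlerDifferential.tensorKaehlerEquivOfFormallyEtale k (MvPolynomial (Fin n) k) O)
  have hb : ∀ i, b i = KaehlerDifferential.D k O (y i) := by
    intro i
    change KaehlerDifferential.tensorKaehlerEquivOfFormallyEtale k (MvPolynomial (Fin n) k) O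
      (B0 i) = _
    rw [KaehlerDifferential.tensorKaehlerEquivOfFormallyEtale_apply, Module.Basis.baseChange_apply,
      KaehlerDifferential.mapBaseChange_tmul, one_smul,
      KaehlerDifferential.mvPolynomialBasis_apply, KaehlerDifferential.map_D]
    congr 1
    exact aeval_X y i
  have hD : ∀ x, KaehlerDifferential.D k O (x - algebraMap k O (ev x)) =
      KaehlerDifferential.D k O x := by
    intro x
    rw [map_sub, Derivation.map_algebraMap, sub_zero]
  have hm : ∀ x, x - algebraMap k O (ev x) ∈ IsLocalRing.maximalIdeal O := by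
    intro x
    rw [← hev, map_sub, AlgHom.commutes]
    simp
  -- the differentials of the elements of the square of the maximal ideal
  have hD2 : ∀ x ∈ MM2 k O, ∀ i, b.repr (KaehlerDifferential.D k O x) i ∈
      IsLocalRing.maximalIdeal O := by
    intro x hx i
    rw [mem_MM2, pow_two] at hx
    refine Submodule.mul_induction_on hx ?_ ?_
    · intro u hu v hv
      rw [Derivation.leibniz, map_add, map_smul, map_smul, Finsupp.add_apply, Finsupp.smul_apply,
        Finsupp.smul_apply]
      exact Ideal.add_mem _ (Ideal.mul_mem_right _ _ hu) (Ideal.mul_mem_right _ _ hv)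
    · intro u v hu hv
      rw [map_add, map_add, Finsupp.add_apply]
      exact Ideal.add_mem _ hu hv
  constructor
  · rw [Submodule.disjoint_def]
    intro x hx hxC
    rw [Submodule.mem_span_insert] at hxC
    obtain ⟨a, w, hw, rfl⟩ := hxC
    obtain ⟨c, hc⟩ := (Submodule.mem_span_range_iff_exists_fun k).1 hw
    have h1 : ∀ i, c i = 0 := by
      intro i
      have h2 := hD2 _ hx i
      have h3 : KaehlerDifferential.D k O (a • 1 + w) =
          ∑ j, (algebraMap k O (c j)) • b j := by
        rw [map_add, Derivation.map_smul, Derivation.map_one_eq_zero, smul_zero, zero_add, ← hc,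
          map_sum]
        refine Finset.sum_congr rfl fun j _ => ?_
        rw [Derivation.map_smul, hD, hb, algebraMap_smul]
      rw [h3, map_sum, Finsupp.finsetSum_apply] at h2
      simp only [map_smul, Module.Basis.repr_self, Finsupp.smul_apply, smul_eq_mul,
        Finsupp.single_apply, mul_ite, mul_one, mul_zero, Finset.sum_ite_eq', Finset.mem_univ,
        if_true] at h2
      by_contra h4
      exact (IsLocalRing.mem_maximalIdeal _).1 h2 ((IsUnit.mk0 _ h4).map (algebraMap k O))
    have hw0 : w = 0 := by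
      rw [← hc]
      exact Finset.sum_eq_zero fun i _ => by rw [h1 i, zero_smul]
    rw [hw0, add_zero] at hx ⊢
    have h5 : ev (a • (1 : O)) = 0 := (hev _).2 (MM2_le hx)
    rw [map_smul, map_one, smul_eq_mul, mul_one] at h5
    rw [h5, zero_smul]
  · rw [codisjoint_iff, eq_top_iff]
    by_contra hcon
    obtain ⟨F, hF0, hF⟩ := Submodule.exists_le_ker_of_lt_top _
      (lt_top_iff_ne_top.2 fun h => hcon h.ge)
    have hF2 : ∀ x ∈ MM2 k O, F x = 0 := fun x hx =>
      LinearMap.mem_ker.1 (hF (Submodule.mem_sup_left hx))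
    have hF1 : F 1 = 0 := LinearMap.mem_ker.1 (hF (Submodule.mem_sup_right
      (Submodule.subset_span (Set.mem_insert _ _))))
    have hFy : ∀ i, F (y i - algebraMap k O (ev (y i))) = 0 := fun i =>
      LinearMap.mem_ker.1 (hF (Submodule.mem_sup_right
        (Submodule.subset_span (Set.mem_insert_of_mem _ ⟨i, rfl⟩))))
    have h1 : (der ev hev F hF2).liftKaehlerDifferential = 0 := by
      refine b.ext fun i => ?_
      rw [hb, Derivation.liftKaehlerDifferential_comp_D, LinearMap.zero_apply]
      change algebraMap k _ (F (y i - algebraMap k O (ev (y i)))) = 0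
      rw [hFy, map_zero]
    apply hF0
    ext x
    have h2 : der ev hev F hF2 x = 0 := by
      rw [← Derivation.liftKaehlerDifferential_comp_D, h1, LinearMap.zero_apply]
    have h3 : algebraMap k (O ⧸ IsLocalRing.maximalIdeal O)
        (F (x - algebraMap k O (ev x))) = 0 := h2
    have h4 : F (x - algebraMap k O (ev x)) = 0 := (map_eq_zero_iff _
      (algebraMap k (O ⧸ IsLocalRing.maximalIdeal O)).injective).1 h3
    rw [map_sub, Algebra.algebraMap_eq_smul_one, map_smul, hF1, smul_zero, sub_zero] at h4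
    rw [h4, LinearMap.zero_apply]

end

end Pool.Agent.Helper49.SF
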